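import Mathlib

namespace Pool.Agent.Helper917Lat

/-- `I M j r`: the rational `r` is `M ^ j` times a fraction whose denominator is coprime to `M`. -/
def I (M : ℤ) (j : ℕ) (r : ℚ) : Prop :=
  ∃ a b : ℤ, IsCoprime b M ∧ r * b = (M : ℚ) ^ j * a

theorem I.add {M : ℤ} {j : ℕ} {r s : ℚ} (hr : I M j r) (hs : I M j s) : I M j (r + s) := by
  obtain ⟨a, b, hb, h⟩ := hr
  obtain ⟨c, d, hd, h'⟩ := hs
  refine ⟨a * d + c * b, b * d, hb.mul_left hd, ?_⟩
  push_cast
  linear_combination (d : ℚ) * h + (b : ℚ) * h'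

theorem I.mul {M : ℤ} {j k : ℕ} {r s : ℚ} (hr : I M j r) (hs : I M k s) : I M (j + k) (r * s) := by
  obtain ⟨a, b, hb, h⟩ := hr
  obtain ⟨c, d, hd, h'⟩ := hs
  refine ⟨a * c, b * d, hb.mul_left hd, ?_⟩
  push_cast
  rw [pow_add]
  calc r * s * ((b : ℚ) * d) = (r * b) * (s * d) := by ring
    _ = _ := by rw [h, h']; ring

theorem I.neg {M : ℤ} {j : ℕ} {r : ℚ} (hr : I M j r) : I M j (-r) := by
  obtain ⟨a, b, hb, h⟩ := hr
  refine ⟨-a, b, hb, ?_⟩
  push_cast
  linear_combination -h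

theorem I.sub {M : ℤ} {j : ℕ} {r s : ℚ} (hr : I M j r) (hs : I M j s) : I M j (r - s) := by
  rw [sub_eq_add_neg]; exact hr.add hs.neg

theorem I.mono {M : ℤ} {j k : ℕ} {r : ℚ} (hr : I M j r) (h : k ≤ j) : I M k r := by
  obtain ⟨a, b, hb, h'⟩ := hr
  refine ⟨M ^ (j - k) * a, b, hb, ?_⟩
  rw [h']
  obtain ⟨t, rfl⟩ := Nat.exists_eq_add_of_le h
  push_cast
  rw [Nat.add_sub_cancel_left, pow_add]; ring

theorem I.int (M n : ℤ) : I M 0 (n : ℚ) := ⟨n, 1, isCoprime_one_left, by simp⟩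

theorem I.self (M : ℤ) : I M 1 (M : ℚ) := ⟨1, 1, isCoprime_one_left, by simp⟩

theorem I.fracOf {M : ℤ} {j : ℕ} (a b : ℤ) (hb : IsCoprime b M) (hb0 : b ≠ 0) {r : ℚ}
    (h : r = (M : ℚ) ^ j * a / b) : I M j r := by
  refine ⟨a, b, hb, ?_⟩
  have : (b : ℚ) ≠ 0 := by exact_mod_cast hb0
  rw [h]; field_simp

theorem I.unit {M : ℤ} (hM : 3 ≤ M) {d : ℚ} (hd : I M 2 (d - 1)) : d ≠ 0 ∧ I M 2 (d⁻¹ - 1) := by
  obtain ⟨a, b, hb, h⟩ := hd
  have hc : IsCoprime (b + M ^ 2 * a) M := by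
    have : b + M ^ 2 * a = b + M * (M * a) := by ring
    rw [this]; exact IsCoprime.add_mul_left_left hb _
  have hdb : d * b = ((b + M ^ 2 * a : ℤ) : ℚ) := by push_cast; linear_combination h
  have hd0 : d ≠ 0 := by
    intro h0
    rw [h0, zero_mul] at hdb
    have : (b + M ^ 2 * a : ℤ) = 0 := by exact_mod_cast hdb.symm
    rw [this, isCoprime_zero_left, Int.isUnit_iff] at hc
    omega
  refine ⟨hd0, -a, b + M ^ 2 * a, hc, ?_⟩
  rw [← hdb]
  field_simp
  push_cast
  linear_combination -h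

theorem I.int_dvd {M : ℤ} {n : ℤ} (hM : M ≠ 0) (h : I M 3 ((M : ℚ) * n)) : M ^ 2 ∣ n := by
  obtain ⟨a, b, hb, h⟩ := h
  have h2 : M * (n * b) = M * (M ^ 2 * a) := by
    have : (M : ℚ) * (n * b) = M * (M ^ 2 * a) := by linear_combination h
    exact_mod_cast this
  have h3 : n * b = M ^ 2 * a := mul_left_cancel₀ hM h2
  exact (IsCoprime.pow_left (m := 2) hb.symm).dvd_of_dvd_mul_right ⟨a, h3⟩

/-- The coefficients of the translation. -/
def al (M : ℤ) : ℚ := 2 * M / (M ^ 2 + 1)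
def be (M : ℤ) : ℚ := ((3 * M + 1) * (M - 1)) / (5 * M ^ 2 + 2 * M + 1)
def kk (M : ℤ) : ℚ := (M + 3) / (3 * M + 1)
def cc (M : ℤ) : ℚ := (2 * M ^ 2 + M + 1) * (2 * M + 1) / (3 * M + 1)

/-- One translation step on the curve. -/
def step (M : ℤ) (p : ℚ × ℚ) : ℚ × ℚ :=
  ((be M * p.1 + al M * p.2) * (1 - kk M * al M * be M * (p.1 * p.2))⁻¹,
    (be M * p.2 - al M * p.1) * (1 + kk M * al M * be M * (p.1 * p.2))⁻¹)

/-- The orbit of the point `(1, M)`. -/
def orb (M : ℤ) : ℕ → ℚ × ℚ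
  | 0 => (1, M)
  | n + 1 => step M (orb M n)

def onCurve (M : ℤ) (p : ℚ × ℚ) : Prop :=
  p.1 ^ 2 + p.2 ^ 2 + kk M * (p.1 * p.2) ^ 2 = cc M

theorem albe {M : ℤ} (hM : 3 ≤ M) : al M ^ 2 + be M ^ 2 + kk M * cc M * (al M * be M) ^ 2 = 1 := by
  have h0 : (3 : ℚ) ≤ M := by exact_mod_cast hM
  have h1 : (M : ℚ) ^ 2 + 1 ≠ 0 := by positivity
  have h2 : 5 * (M : ℚ) ^ 2 + 2 * M + 1 ≠ 0 := by positivity
  have h3 : 3 * (M : ℚ) + 1 ≠ 0 := by positivity
  unfold al be kk cc
  field_simp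
  ring

theorem step_onCurve {M : ℤ} (hM : 3 ≤ M) {p : ℚ × ℚ} (hp : onCurve M p)
    (h1 : 1 - kk M * al M * be M * (p.1 * p.2) ≠ 0)
    (h2 : 1 + kk M * al M * be M * (p.1 * p.2) ≠ 0) : onCurve M (step M p) := by
  have G2 := albe hM
  unfold onCurve at hp ⊢
  unfold step
  obtain ⟨x, y⟩ := p
  simp only at hp h1 h2 ⊢
  set k := kk M
  set C := cc M
  set a := al M
  set b := be M
  have e1 : (x ^ 2 + y ^ 2) + k * (a ^ 2 + b ^ 2) * (x * y) ^ 2
      = C * (1 - (k * a * b * (x * y)) ^ 2) := by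
    linear_combination hp + k * (x * y) ^ 2 * G2
  have e2 : (a ^ 2 + b ^ 2) + k * (a * b) ^ 2 * (x ^ 2 + y ^ 2)
      = 1 - (k * a * b * (x * y)) ^ 2 := by
    linear_combination G2 + k * (a * b) ^ 2 * hp
  have e3 : (b * x + a * y) ^ 2 * (1 + k * a * b * (x * y)) ^ 2
      + (b * y - a * x) ^ 2 * (1 - k * a * b * (x * y)) ^ 2
      + k * ((b * x + a * y) * (b * y - a * x)) ^ 2
      = C * (1 - k * a * b * (x * y)) ^ 2 * (1 + k * a * b * (x * y)) ^ 2 := by
    have : (b * x + a * y) ^ 2 * (1 + k * a * b * (x * y)) ^ 2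
      + (b * y - a * x) ^ 2 * (1 - k * a * b * (x * y)) ^ 2
      + k * ((b * x + a * y) * (b * y - a * x)) ^ 2
      = ((x ^ 2 + y ^ 2) + k * (a ^ 2 + b ^ 2) * (x * y) ^ 2) *
        ((a ^ 2 + b ^ 2) + k * (a * b) ^ 2 * (x ^ 2 + y ^ 2)) := by ring
    rw [this, e1, e2]; ring
  have hu : (1 - k * a * b * (x * y)) * (1 - k * a * b * (x * y))⁻¹ = 1 := mul_inv_cancel₀ h1
  have hv : (1 + k * a * b * (x * y)) * (1 + k * a * b * (x * y))⁻¹ = 1 := mul_inv_cancel₀ h2
  generalize (1 - k * a * b * (x * y))⁻¹ = u at hu ⊢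
  generalize (1 + k * a * b * (x * y))⁻¹ = v at hv ⊢
  calc ((b * x + a * y) * u) ^ 2 + ((b * y - a * x) * v) ^ 2
        + k * ((b * x + a * y) * u * ((b * y - a * x) * v)) ^ 2
      = ((b * x + a * y) * u) ^ 2 * ((1 + k * a * b * (x * y)) * v) ^ 2
        + ((b * y - a * x) * v) ^ 2 * ((1 - k * a * b * (x * y)) * u) ^ 2
        + k * ((b * x + a * y) * u * ((b * y - a * x) * v)) ^ 2 := by rw [hu, hv]; ring
    _ = (u * v) ^ 2 * ((b * x + a * y) ^ 2 * (1 + k * a * b * (x * y)) ^ 2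
      + (b * y - a * x) ^ 2 * (1 - k * a * b * (x * y)) ^ 2
      + k * ((b * x + a * y) * (b * y - a * x)) ^ 2) := by ring
    _ = C * ((1 - k * a * b * (x * y)) * u) ^ 2 * ((1 + k * a * b * (x * y)) * v) ^ 2 := by
        rw [e3]; ring
    _ = C := by rw [hu, hv]; ring

theorem I.zero (M : ℤ) (j : ℕ) : I M j 0 := ⟨0, 1, isCoprime_one_left, by simp⟩

theorem cop1 (M : ℤ) : IsCoprime (M ^ 2 + 1) M := by
  have : M ^ 2 + 1 = 1 + M * M := by ring
  rw [this]; exact IsCoprime.add_mul_left_left isCoprime_one_left _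

theorem cop2 (M : ℤ) : IsCoprime (5 * M ^ 2 + 2 * M + 1) M := by
  have : 5 * M ^ 2 + 2 * M + 1 = 1 + M * (5 * M + 2) := by ring
  rw [this]; exact IsCoprime.add_mul_left_left isCoprime_one_left _

theorem al_I {M : ℤ} (hM : 3 ≤ M) : I M 3 (al M - 2 * M) := by
  refine I.fracOf (-2) (M ^ 2 + 1) (cop1 M) (by positivity) ?_
  have h1 : (M : ℚ) ^ 2 + 1 ≠ 0 := by positivity
  unfold al
  push_cast
  field_simp
  ring

theorem be_I {M : ℤ} (hM : 3 ≤ M) : I M 2 (be M + 1) := by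
  have h0 : (3 : ℚ) ≤ M := by exact_mod_cast hM
  have h2 : 5 * (M : ℚ) ^ 2 + 2 * M + 1 ≠ 0 := by positivity
  refine I.fracOf 8 (5 * M ^ 2 + 2 * M + 1) (cop2 M) (by positivity) ?_
  unfold be
  push_cast
  field_simp
  ring

theorem t_I {M : ℤ} (hM : 3 ≤ M) : I M 1 (kk M * al M * be M) := by
  have h0 : (3 : ℚ) ≤ M := by exact_mod_cast hM
  have h1 : (M : ℚ) ^ 2 + 1 ≠ 0 := by positivity
  have h2 : 5 * (M : ℚ) ^ 2 + 2 * M + 1 ≠ 0 := by positivity
  have h3 : 3 * (M : ℚ) + 1 ≠ 0 := by positivity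
  refine I.fracOf (2 * (M - 1) * (M + 3)) ((M ^ 2 + 1) * (5 * M ^ 2 + 2 * M + 1))
    ((cop1 M).mul_left (cop2 M)) (by positivity) ?_
  unfold al be kk
  push_cast
  field_simp

theorem orb_inv {M : ℤ} (hM : 3 ≤ M) (n : ℕ) :
    onCurve M (orb M n) ∧ I M 2 ((orb M n).1 - ((((-1) ^ n : ℤ)) : ℚ)) ∧
      I M 3 ((orb M n).2 - (((-1) ^ n * (2 * n + 1) : ℤ) : ℚ) * M) := by
  induction n with
  | zero =>
    refine ⟨?_, ?_, ?_⟩
    · have h0 : (3 : ℚ) ≤ M := by exact_mod_cast hM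
      have h3 : 3 * (M : ℚ) + 1 ≠ 0 := by positivity
      unfold onCurve orb kk cc
      field_simp
      ring
    · simp [orb, I.zero]
    · simp [orb, I.zero]
  | succ n ih =>
    obtain ⟨hc, hx, hy⟩ := ih
    set p := orb M n with hp
    obtain ⟨x, y⟩ := p
    simp only at hx hy
    set s : ℤ := (-1) ^ n with hs
    have hsI : I M 0 (s : ℚ) := I.int M s
    have hxI : I M 0 x := by
      have := (hx.mono (Nat.zero_le 2)).add hsI
      simpa using this
    have hyI : I M 1 y := by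
      have h1 : I M 1 (((s * (2 * n + 1) : ℤ) : ℚ) * M) := by
        have := (I.int M (s * (2 * n + 1))).mul (I.self M)
        simpa using this
      have := (hy.mono (by norm_num : 1 ≤ 3)).add h1
      simpa using this
    have hD : I M 2 (kk M * al M * be M * (x * y)) := by
      have h := (t_I hM).mul (hxI.mul hyI)
      simpa using h
    have hu := I.unit (d := 1 - kk M * al M * be M * (x * y)) hM (by
      have := hD.neg
      have e : 1 - kk M * al M * be M * (x * y) - 1 = -(kk M * al M * be M * (x * y)) := by ring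
      rw [e]; exact this)
    have hv := I.unit (d := 1 + kk M * al M * be M * (x * y)) hM (by
      have e : 1 + kk M * al M * be M * (x * y) - 1 = (kk M * al M * be M * (x * y)) := by ring
      rw [e]; exact hD)
    have hstep : orb M (n + 1) = step M (x, y) := by
      show step M (orb M n) = _
      rw [← hp]
    rw [hstep]
    refine ⟨step_onCurve hM hc hu.1 hv.1, ?_, ?_⟩
    · have hb := be_I hM
      have hα1 : I M 1 (al M) := by
        have h1 := ((al_I hM).mono (by norm_num : 1 ≤ 3)).add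
          (((I.int M 2).mul (I.self M)).mono (by norm_num : 1 ≤ 0 + 1))
        simpa using h1
      have key : I M 2 (be M * x + al M * y + s) := by
        have h1 := ((hb.mul hxI).sub hx).add ((hα1.mul hyI))
        have e : be M * x + al M * y + s = (be M + 1) * x - (x - s) + al M * y := by ring
        rw [e]; exact h1
      have hU := hu.2
      have huI : I M 0 ((1 - kk M * al M * be M * (x * y))⁻¹) := by
        have := (hU.mono (Nat.zero_le 2)).add (I.int M 1)
        simpa using this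
      have h2 := (key.mul huI).sub (hsI.mul hU)
      have e : (step M (x, y)).1 - (((-1) ^ (n + 1) : ℤ) : ℚ)
          = (be M * x + al M * y + s) * (1 - kk M * al M * be M * (x * y))⁻¹
            - s * ((1 - kk M * al M * be M * (x * y))⁻¹ - 1) := by
        have : (((-1) ^ (n + 1) : ℤ) : ℚ) = -(s : ℚ) := by rw [hs, pow_succ]; push_cast; ring
        rw [this]; unfold step; simp only; ring
      rw [e]
      simpa using h2
    · have hb := be_I hM
      have hα := al_I hM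
      have hcI : I M 1 (((s * (2 * n + 3) : ℤ) : ℚ) * M) := by
        have := (I.int M (s * (2 * n + 3))).mul (I.self M)
        simpa using this
      have key : I M 3 (be M * y - al M * x + ((s * (2 * n + 3) : ℤ) : ℚ) * M) := by
        have h1 := (((hb.mul hyI).sub hy).sub (hα.mul hxI)).sub
          (((I.int M 2).mul (I.self M)).mul hx)
        have e : be M * y - al M * x + ((s * (2 * n + 3) : ℤ) : ℚ) * M
            = (be M + 1) * y - (y - ((s * (2 * n + 1) : ℤ) : ℚ) * M) - (al M - 2 * M) * x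
              - ((2 : ℤ) : ℚ) * M * (x - s) := by push_cast; ring
        rw [e]; exact h1
      have hV := hv.2
      have hvI : I M 0 ((1 + kk M * al M * be M * (x * y))⁻¹) := by
        have := (hV.mono (Nat.zero_le 2)).add (I.int M 1)
        simpa using this
      have h2 := (key.mul hvI).sub (hcI.mul hV)
      have e : (step M (x, y)).2 - (((-1) ^ (n + 1) * (2 * ((n + 1 : ℕ) : ℤ) + 1) : ℤ) : ℚ) * M
          = (be M * y - al M * x + ((s * (2 * n + 3) : ℤ) : ℚ) * M)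
              * (1 + kk M * al M * be M * (x * y))⁻¹
            - ((s * (2 * n + 3) : ℤ) : ℚ) * M * ((1 + kk M * al M * be M * (x * y))⁻¹ - 1) := by
        have : (((-1) ^ (n + 1) * (2 * ((n + 1 : ℕ) : ℤ) + 1) : ℤ) : ℚ)
            = -((s * (2 * n + 3) : ℤ) : ℚ) := by rw [hs, pow_succ]; push_cast; ring
        rw [this]; unfold step; simp only; ring
      rw [e]
      simpa using h2

theorem pair_sum {M : ℤ} (hM : 3 ≤ M) {p : ℚ × ℚ} (hp : onCurve M p) :
    1 / ((2 * M + 1) + p.1 ^ 2) + 1 / ((2 * M + 1) + p.2 ^ 2)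
      = ((M : ℚ) + 3) / (2 * (M + 1) ^ 2) := by
  have h0 : (3 : ℚ) ≤ M := by exact_mod_cast hM
  have h3 : 3 * (M : ℚ) + 1 ≠ 0 := by positivity
  have hx : (2 * (M : ℚ) + 1) + p.1 ^ 2 ≠ 0 := by positivity
  have hy : (2 * (M : ℚ) + 1) + p.2 ^ 2 ≠ 0 := by positivity
  have h4 : (M : ℚ) + 1 ≠ 0 := by positivity
  unfold onCurve kk cc at hp
  obtain ⟨x, y⟩ := p
  simp only at hp hx hy ⊢
  have hp' : (3 * M + 1) * (x ^ 2 + y ^ 2) + (M + 3) * (x * y) ^ 2
      = (2 * (M : ℚ) ^ 2 + M + 1) * (2 * M + 1) := by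
    field_simp at hp
    linear_combination hp
  rw [div_add_div _ _ hx hy, div_eq_div_iff (mul_ne_zero hx hy) (by positivity)]
  linear_combination -hp'

theorem dvd_of_I1 {M n : ℤ} (h : I M 1 (n : ℚ)) : M ∣ n := by
  obtain ⟨a, b, hb, h⟩ := h
  have : n * b = M * a := by
    have : (n : ℚ) * b = M * a := by linear_combination h
    exact_mod_cast this
  exact hb.symm.dvd_of_dvd_mul_right ⟨a, this⟩

theorem neg_one_cases (n : ℕ) : ((-1) ^ n : ℤ) = 1 ∨ ((-1) ^ n : ℤ) = -1 :=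
  neg_one_pow_eq_or ℤ n

theorem y_ne_zero {M : ℤ} (hM : 3 ≤ M) {i : ℕ} (hi : 2 * (i : ℤ) + 1 ≤ M) : (orb M i).2 ≠ 0 := by
  intro h
  have hy := (orb_inv hM i).2.2
  rw [h] at hy
  have h1 : I M 3 ((M : ℚ) * ((-1) ^ i * (2 * i + 1) : ℤ)) := by
    have := hy.neg
    have e : (M : ℚ) * ((-1) ^ i * (2 * i + 1) : ℤ)
      = -(0 - (((-1) ^ i * (2 * i + 1) : ℤ) : ℚ) * M) := by ring
    rw [e]; exact this
  have h2 := I.int_dvd (by omega) h1
  obtain ⟨c, hc⟩ := h2
  have hMM : M ≤ M ^ 2 - 2 := by nlinarith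
  rcases neg_one_cases i with hs | hs <;> rw [hs] at hc
  · rcases lt_trichotomy c 0 with hc0 | hc0 | hc0
    · nlinarith [sq_nonneg M]
    · subst hc0; omega
    · nlinarith [sq_nonneg M]
  · rcases lt_trichotomy c 0 with hc0 | hc0 | hc0
    · nlinarith [sq_nonneg M]
    · subst hc0; omega
    · nlinarith [sq_nonneg M]

theorem no_int {M n : ℤ} (hM : 3 ≤ M) (h : I M 3 ((M : ℚ) * n)) (h1 : n ≠ 0)
    (h2 : n ≤ 2 * M) (h3 : -(2 * M) ≤ n) : False := by
  obtain ⟨c, hc⟩ := I.int_dvd (by omega) h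
  have hMM : 2 * M < M ^ 2 := by nlinarith
  rcases lt_trichotomy c 0 with hc0 | hc0 | hc0
  · nlinarith [sq_nonneg M]
  · subst hc0; omega
  · nlinarith [sq_nonneg M]

theorem y_abs_ne {M : ℤ} (hM : 3 ≤ M) {i j : ℕ} (hi : 2 * (i : ℤ) + 1 ≤ M)
    (hj : 2 * (j : ℤ) + 1 ≤ M) (hij : i ≠ j) : |(orb M i).2| ≠ |(orb M j).2| := by
  intro h
  have hyi := (orb_inv hM i).2.2
  have hyj := (orb_inv hM j).2.2
  have hij' : (i : ℤ) ≠ j := by exact_mod_cast hij
  rcases abs_eq_abs.mp h with h | h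
  · have h1 : I M 3 ((M : ℚ) * ((-1) ^ i * (2 * i + 1) - (-1) ^ j * (2 * j + 1) : ℤ)) := by
      have h2 := hyj.sub hyi
      have e : (M : ℚ) * ((-1) ^ i * (2 * i + 1) - (-1) ^ j * (2 * j + 1) : ℤ)
        = ((orb M j).2 - (((-1) ^ j * (2 * j + 1) : ℤ) : ℚ) * M)
          - ((orb M i).2 - (((-1) ^ i * (2 * i + 1) : ℤ) : ℚ) * M) := by
        rw [h]; push_cast; ring
      rw [e]; exact h2
    refine no_int hM h1 ?_ ?_ ?_ <;>
      rcases neg_one_cases i with hs | hs <;> rcases neg_one_cases j with ht | ht <;>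
      rw [hs, ht] <;> omega
  · have h1 : I M 3 ((M : ℚ) * ((-1) ^ i * (2 * i + 1) + (-1) ^ j * (2 * j + 1) : ℤ)) := by
      have h2 := (hyj.add hyi).neg
      have e : (M : ℚ) * ((-1) ^ i * (2 * i + 1) + (-1) ^ j * (2 * j + 1) : ℤ)
        = -(((orb M j).2 - (((-1) ^ j * (2 * j + 1) : ℤ) : ℚ) * M)
          + ((orb M i).2 - (((-1) ^ i * (2 * i + 1) : ℤ) : ℚ) * M)) := by
        rw [h]; push_cast; ring
      rw [e]; exact h2
    refine no_int hM h1 ?_ ?_ ?_ <;>
      rcases neg_one_cases i with hs | hs <;> rcases neg_one_cases j with ht | ht <;>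
      rw [hs, ht] <;> omega

theorem x_abs_ne {M : ℤ} (hM : 3 ≤ M) {i j : ℕ} (hi : 2 * (i : ℤ) + 1 ≤ M)
    (hj : 2 * (j : ℤ) + 1 ≤ M) (hij : i ≠ j) : |(orb M i).1| ≠ |(orb M j).1| := by
  intro h
  apply y_abs_ne hM hi hj hij
  have hi' := (orb_inv hM i).1
  have hj' := (orb_inv hM j).1
  unfold onCurve at hi' hj'
  have hsq : (orb M i).1 ^ 2 = (orb M j).1 ^ 2 := sq_eq_sq_iff_abs_eq_abs _ _ |>.mpr h
  rw [← sq_eq_sq_iff_abs_eq_abs]
  have h0 : (3 : ℚ) ≤ M := by exact_mod_cast hM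
  have hk : 0 < kk M := by unfold kk; positivity
  have hpos : 1 + kk M * (orb M i).1 ^ 2 ≠ 0 := by positivity
  have : (1 + kk M * (orb M i).1 ^ 2) * (orb M i).2 ^ 2
      = (1 + kk M * (orb M i).1 ^ 2) * (orb M j).2 ^ 2 := by
    have e1 : (orb M i).1 ^ 2 + (orb M i).2 ^ 2 + kk M * ((orb M i).1 ^ 2 * (orb M i).2 ^ 2)
        = cc M := by rw [← hi']; ring
    have e2 : (orb M i).1 ^ 2 + (orb M j).2 ^ 2 + kk M * ((orb M i).1 ^ 2 * (orb M j).2 ^ 2)
        = cc M := by rw [← hj', hsq]; ring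
    linear_combination e1 - e2
  exact mul_left_cancel₀ hpos this

theorem y_I1 {M : ℤ} (hM : 3 ≤ M) (j : ℕ) : I M 1 (orb M j).2 := by
  have hyj := (orb_inv hM j).2.2
  have h1 : I M 1 ((((-1) ^ j * (2 * j + 1) : ℤ) : ℚ) * M) := by
    have := (I.int M ((-1) ^ j * (2 * j + 1))).mul (I.self M)
    simpa using this
  have := (hyj.mono (by norm_num : 1 ≤ 3)).add h1
  simpa using this

theorem x_not_I1 {M : ℤ} (hM : 3 ≤ M) (i : ℕ) (h : I M 1 (orb M i).1) : False := by
  have hx := (orb_inv hM i).2.1.mono (by norm_num : 1 ≤ 2)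
  have h2 : I M 1 (((-1) ^ i : ℤ) : ℚ) := by
    have := h.sub hx
    have e : (((-1) ^ i : ℤ) : ℚ) = (orb M i).1 - ((orb M i).1 - (((-1) ^ i : ℤ) : ℚ)) := by ring
    rw [e]; exact this
  have h3 := dvd_of_I1 h2
  have : IsUnit ((-1) ^ i : ℤ) := (isUnit_one.neg).pow i
  have h4 := isUnit_of_dvd_unit h3 this
  rw [Int.isUnit_iff] at h4
  omega

theorem xy_abs_ne {M : ℤ} (hM : 3 ≤ M) (i j : ℕ) : |(orb M i).1| ≠ |(orb M j).2| := by
  intro h
  rcases abs_eq_abs.mp h with h | h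
  · exact x_not_I1 hM i (by rw [h]; exact y_I1 hM j)
  · exact x_not_I1 hM i (by rw [h]; exact (y_I1 hM j).neg)

theorem x_abs_ne_M {M : ℤ} (hM : 3 ≤ M) (i : ℕ) : |(orb M i).1| ≠ M := by
  have h := xy_abs_ne hM i 0
  have h0 : (3 : ℚ) ≤ M := by exact_mod_cast hM
  have : |(orb M 0).2| = M := by
    show |(M : ℚ)| = M
    exact abs_of_pos (by linarith)
  rwa [this] at h

theorem y_abs_ne_M {M : ℤ} (hM : 3 ≤ M) {i : ℕ} (hi : 2 * (i : ℤ) + 1 ≤ M) (h0i : i ≠ 0) :
    |(orb M i).2| ≠ M := by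
  have h := y_abs_ne hM hi (j := 0) (by push_cast; omega) h0i
  have h0 : (3 : ℚ) ≤ M := by exact_mod_cast hM
  have : |(orb M 0).2| = M := by
    show |(M : ℚ)| = M
    exact abs_of_pos (by linarith)
  rwa [this] at h

theorem x_ne_zero {M : ℤ} (hM : 3 ≤ M) (i : ℕ) : (orb M i).1 ≠ 0 := by
  intro h
  exact x_not_I1 hM i (by rw [h]; exact I.zero M 1)

/-- The family of `2 h + 1` distinct positive rationals. -/
def fam (h : ℕ) : Option (Fin h × Bool) → ℚ
  | none => 2 * h + 1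
  | some (i, false) => |(orb (2 * h + 1) (i + 1)).1|
  | some (i, true) => |(orb (2 * h + 1) (i + 1)).2|

theorem fam_pos (h : ℕ) (a : Option (Fin h × Bool)) : 0 < fam h a := by
  rcases a with _ | ⟨i, _ | _⟩
  · simp only [fam]; positivity
  · have := i.2
    exact abs_pos.mpr (x_ne_zero (by omega) _)
  · have := i.2
    exact abs_pos.mpr (y_ne_zero (by omega) (by push_cast; omega))

theorem fam_inj (h : ℕ) : Function.Injective (fam h) := by
  have hcast : (((2 * h + 1 : ℤ)) : ℚ) = 2 * h + 1 := by push_cast; ring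
  rintro (_ | ⟨i, _ | _⟩) (_ | ⟨j, _ | _⟩) e
  · rfl
  · exfalso
    have := j.2
    have h1 := x_abs_ne_M (M := 2 * h + 1) (by omega) (j + 1)
    rw [hcast] at h1
    exact h1 e.symm
  · exfalso
    have := j.2
    have h1 := y_abs_ne_M (M := 2 * h + 1) (by omega) (i := j + 1) (by push_cast; omega) (by omega)
    rw [hcast] at h1
    exact h1 e.symm
  · exfalso
    have := i.2
    have h1 := x_abs_ne_M (M := 2 * h + 1) (by omega) (i + 1)
    rw [hcast] at h1
    exact h1 e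
  · by_contra hne
    have := i.2
    have := j.2
    have hij : (i : ℕ) + 1 ≠ j + 1 := by
      intro h2
      apply hne
      have : i = j := Fin.ext (by omega)
      rw [this]
    exact x_abs_ne (M := 2 * h + 1) (by omega) (by push_cast; omega) (by push_cast; omega) hij e
  · exfalso
    have := i.2
    exact xy_abs_ne (M := 2 * h + 1) (by omega) _ _ e
  · exfalso
    have := i.2
    have h1 := y_abs_ne_M (M := 2 * h + 1) (by omega) (i := i + 1) (by push_cast; omega) (by omega)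
    rw [hcast] at h1
    exact h1 e
  · exfalso
    have := i.2
    exact xy_abs_ne (M := 2 * h + 1) (by omega) _ _ e.symm
  · by_contra hne
    have := i.2
    have := j.2
    have hij : (i : ℕ) + 1 ≠ j + 1 := by
      intro h2
      apply hne
      have : i = j := Fin.ext (by omega)
      rw [this]
    exact y_abs_ne (M := 2 * h + 1) (by omega) (by push_cast; omega) (by push_cast; omega) hij e

theorem fam_sum (h : ℕ) :
    ∑ a, 1 / (((4 * h + 3 : ℕ) : ℚ) + fam h a ^ 2) = 1 / 4 := by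
  rw [Fintype.sum_option, Fintype.sum_prod_type]
  have hcast : (((2 * h + 1 : ℤ)) : ℚ) = 2 * h + 1 := by push_cast; ring
  have h1 : ∀ i : Fin h, ∑ b, 1 / (((4 * h + 3 : ℕ) : ℚ) + fam h (some (i, b)) ^ 2)
      = (2 * (h : ℚ) + 4) / (2 * (2 * h + 2) ^ 2) := by
    intro i
    have := i.2
    rw [Fintype.sum_bool, add_comm]
    have h2 := pair_sum (M := 2 * h + 1) (by omega) (orb_inv (M := 2 * h + 1) (by omega) (i + 1)).1
    simp only [fam, sq_abs]
    rw [hcast] at h2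
    have e1 : ((4 * h + 3 : ℕ) : ℚ) = 2 * (2 * (h : ℚ) + 1) + 1 := by push_cast; ring
    rw [e1, h2]
    have e2 : 2 * (h : ℚ) + 1 + 3 = 2 * h + 4 := by ring
    have e3 : 2 * (h : ℚ) + 1 + 1 = 2 * h + 2 := by ring
    rw [e2, e3]
  rw [Finset.sum_congr rfl (fun i _ => h1 i)]
  simp only [fam, Finset.sum_const, Finset.card_univ, Fintype.card_fin, nsmul_eq_mul]
  have hh : (0 : ℚ) ≤ h := by positivity
  have e4 : ((4 * h + 3 : ℕ) : ℚ) + (2 * (h : ℚ) + 1) ^ 2 = (2 * h + 2) ^ 2 := by push_cast; ring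
  rw [e4]
  field_simp
  ring

/-- From distinct positive rationals with the right reciprocal sum to distinct lattice vectors of
equal length with sum zero. -/
theorem vectors_of_family {κ : Type} [Fintype κ] (m : ℕ) (hm : 0 < m) (f : κ → ℚ)
    (hf : Function.Injective f) (hpos : ∀ a, 0 < f a) (n : ℕ) (hn : n = 2 * Fintype.card κ + 1)
    (hsum : ∑ a, 1 / ((m : ℚ) + f a ^ 2) = (n : ℚ) / (4 * m)) :
    ∃ (e : Option (κ × Bool) → ℤ × ℤ) (N : ℤ), Function.Injective e ∧ 0 < N ∧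
      (∀ i, (e i).1 ^ 2 + (m : ℤ) * (e i).2 ^ 2 = N) ∧ ∑ i, e i = 0 := by
  classical
  have hm' : (0 : ℚ) < m := by exact_mod_cast hm
  -- rational coordinates
  let X : Option (κ × Bool) → ℚ := fun i => match i with
    | none => 1
    | some (a, _) => (f a ^ 2 - m) / (m + f a ^ 2)
  let Y : Option (κ × Bool) → ℚ := fun i => match i with
    | none => 0
    | some (a, false) => 2 * f a / (m + f a ^ 2)
    | some (a, true) => -(2 * f a / (m + f a ^ 2))
  have hd : ∀ a, (0 : ℚ) < m + f a ^ 2 := fun a => by positivity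
  have hX1 : ∀ a, (f a ^ 2 - m) / (m + f a ^ 2) = 1 - 2 * m * (1 / (m + f a ^ 2)) := by
    intro a
    have := (hd a).ne'
    field_simp
    ring
  have hnorm : ∀ i, X i ^ 2 + m * Y i ^ 2 = 1 := by
    rintro (_ | ⟨a, _ | _⟩)
    · simp [X, Y]
    · have := (hd a).ne'
      simp only [X, Y]
      field_simp
      ring
    · have := (hd a).ne'
      simp only [X, Y]
      field_simp
      ring
  have hinj : ∀ i j, X i = X j → Y i = Y j → i = j := by
    have hlt : ∀ a, (f a ^ 2 - m) / (m + f a ^ 2) < 1 := by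
      intro a
      rw [hX1]
      have h1 := hd a
      have : 0 < 2 * (m : ℚ) * (1 / (m + f a ^ 2)) := by positivity
      linarith
    have hab : ∀ a b, (f a ^ 2 - m) / (m + f a ^ 2) = (f b ^ 2 - m) / (m + f b ^ 2) → a = b := by
      intro a b h
      apply hf
      rw [hX1, hX1] at h
      have h2 : 1 / ((m : ℚ) + f a ^ 2) = 1 / (m + f b ^ 2) := by
        have h3 : (2 * (m : ℚ)) * (1 / (m + f a ^ 2)) = (2 * m) * (1 / (m + f b ^ 2)) := by linarith
        exact mul_left_cancel₀ (by positivity) h3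
      have h4 : (m : ℚ) + f a ^ 2 = m + f b ^ 2 := by
        rw [one_div, one_div] at h2
        exact inv_injective h2
      have h5 : f a ^ 2 = f b ^ 2 := by linarith
      exact (pow_left_inj₀ (hpos a).le (hpos b).le (by norm_num)).mp h5
    have hYpos : ∀ a, 0 < 2 * f a / (m + f a ^ 2) := fun a => by
      have := hpos a
      positivity
    rintro (_ | ⟨a, _ | _⟩) (_ | ⟨b, _ | _⟩) hx hy
    · rfl
    · exact absurd hx.symm (hlt b).ne
    · exact absurd hx.symm (hlt b).ne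
    · exact absurd hx (hlt a).ne
    · rw [hab a b hx]
    · exfalso
      simp only [Y] at hy
      have h1 := hYpos a
      have h2 := hYpos b
      linarith
    · exact absurd hx (hlt a).ne
    · exfalso
      simp only [Y] at hy
      have h1 := hYpos a
      have h2 := hYpos b
      linarith
    · rw [hab a b hx]
  have hsumX : ∑ i, X i = 0 := by
    rw [Fintype.sum_option, Fintype.sum_prod_type]
    have h1 : ∀ a : κ, ∑ b : Bool, X (some (a, b)) = 2 - 4 * m * (1 / (m + f a ^ 2)) := by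
      intro a
      rw [Fintype.sum_bool]
      simp only [X]
      rw [hX1]
      ring
    rw [Finset.sum_congr rfl (fun a _ => h1 a), Finset.sum_sub_distrib, ← Finset.mul_sum, hsum]
    simp only [X, Finset.sum_const, Finset.card_univ, nsmul_eq_mul]
    rw [hn]
    push_cast
    field_simp
    ring
  have hsumY : ∑ i, Y i = 0 := by
    rw [Fintype.sum_option, Fintype.sum_prod_type]
    have h1 : ∀ a : κ, ∑ b : Bool, Y (some (a, b)) = 0 := by
      intro a
      rw [Fintype.sum_bool]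
      simp only [Y]
      ring
    rw [Finset.sum_congr rfl (fun a _ => h1 a)]
    simp [Y]
  -- clear denominators
  let L : ℕ := ∏ i, ((X i).den * (Y i).den)
  have hL : 0 < L := Finset.prod_pos fun i _ => Nat.mul_pos (X i).den_pos (Y i).den_pos
  have hLX : ∀ i, ∃ z : ℤ, (z : ℚ) = L * X i := by
    intro i
    have hdvd : (X i).den ∣ L :=
      (Nat.dvd_mul_right _ _).trans (Finset.dvd_prod_of_mem _ (Finset.mem_univ i))
    obtain ⟨c, hc⟩ := hdvd
    refine ⟨c * (X i).num, ?_⟩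
    rw [hc]
    push_cast
    have := Rat.den_mul_eq_num (X i)
    rw [← this]; ring
  have hLY : ∀ i, ∃ z : ℤ, (z : ℚ) = L * Y i := by
    intro i
    have hdvd : (Y i).den ∣ L :=
      (Nat.dvd_mul_left _ _).trans (Finset.dvd_prod_of_mem _ (Finset.mem_univ i))
    obtain ⟨c, hc⟩ := hdvd
    refine ⟨c * (Y i).num, ?_⟩
    rw [hc]
    push_cast
    have := Rat.den_mul_eq_num (Y i)
    rw [← this]; ring
  choose A hA using hLX
  choose B hB using hLY
  have hL' : (L : ℚ) ≠ 0 := by exact_mod_cast hL.ne'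
  refine ⟨fun i => (A i, B i), (L : ℤ) ^ 2, ?_, by positivity, ?_, ?_⟩
  · intro i j hij
    simp only [Prod.mk.injEq] at hij
    apply hinj
    · have : (L : ℚ) * X i = L * X j := by rw [← hA, ← hA, hij.1]
      exact mul_left_cancel₀ hL' this
    · have : (L : ℚ) * Y i = L * Y j := by rw [← hB, ← hB, hij.2]
      exact mul_left_cancel₀ hL' this
  · intro i
    have : ((A i : ℚ)) ^ 2 + (m : ℚ) * (B i : ℚ) ^ 2 = (L : ℚ) ^ 2 := by
      rw [hA, hB]
      linear_combination (L : ℚ) ^ 2 * hnorm i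
    exact_mod_cast this
  · apply Prod.ext
    · have : ((∑ i, A i : ℤ) : ℚ) = 0 := by
        push_cast
        rw [Finset.sum_congr rfl (fun i _ => hA i), ← Finset.mul_sum, hsumX, mul_zero]
      rw [Prod.fst_sum]
      exact_mod_cast this
    · have : ((∑ i, B i : ℤ) : ℚ) = 0 := by
        push_cast
        rw [Finset.sum_congr rfl (fun i _ => hB i), ← Finset.mul_sum, hsumY, mul_zero]
      rw [Prod.snd_sum]
      exact_mod_cast this

end Pool.Agent.Helper917Lat
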