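import Mathlib

namespace Pool.Agent.Helper917Lat

open Real Finset

/-- planar cross product -/
def cross (u v : ℝ × ℝ) : ℝ := u.1 * v.2 - u.2 * v.1

theorem sin_sum_fwd {n : ℕ} {θ : ℕ → ℝ} (hmono : ∀ i j, i < j → j < n → θ i < θ j)
    (hl : ∀ i, i < n → -π < θ i) (hu : ∀ i, i < n → θ i ≤ π)
    (hs : ∀ t : ℝ, ∑ l ∈ range n, sin (θ l - t) = 0) {i j : ℕ} (hij : i + 1 < j) (hj : j < n) :
    0 < ∑ l ∈ Ico i j, sin (θ l - θ i) := by
  rcases lt_or_ge (θ (j - 1) - θ i) π with h | h
  · apply Finset.sum_pos'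
    · intro l hl'
      rw [mem_Ico] at hl'
      rcases Nat.eq_or_lt_of_le hl'.1 with h1 | h1
      · rw [← h1]; simp
      · have h2 := hmono i l h1 (by omega)
        have h3 : θ l ≤ θ (j - 1) := by
          rcases Nat.eq_or_lt_of_le (show l ≤ j - 1 by omega) with h4 | h4
          · rw [h4]
          · exact (hmono l (j - 1) h4 (by omega)).le
        exact (sin_pos_of_pos_of_lt_pi (by linarith) (by linarith)).le
    · refine ⟨i + 1, by rw [mem_Ico]; omega, ?_⟩
      have h2 := hmono i (i + 1) (by omega) (by omega)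
      have h3 : θ (i + 1) ≤ θ (j - 1) := by
        rcases Nat.eq_or_lt_of_le (show i + 1 ≤ j - 1 by omega) with h4 | h4
        · rw [h4]
        · exact (hmono (i + 1) (j - 1) h4 (by omega)).le
      exact sin_pos_of_pos_of_lt_pi (by linarith) (by linarith)
  · have htot := hs (θ i)
    have hsplit : ∑ l ∈ range n, sin (θ l - θ i) = ∑ l ∈ range i, sin (θ l - θ i)
        + ∑ l ∈ Ico i j, sin (θ l - θ i) + ∑ l ∈ Ico j n, sin (θ l - θ i) := by
      rw [range_eq_Ico, range_eq_Ico, Finset.sum_Ico_consecutive _ (by omega) (by omega),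
        Finset.sum_Ico_consecutive _ (by omega) (by omega)]
    have h1 : ∑ l ∈ range i, sin (θ l - θ i) ≤ 0 := by
      apply Finset.sum_nonpos
      intro l hl'
      rw [mem_range] at hl'
      have h2 := hmono l i hl' (by omega)
      have h3 := hl l (by omega)
      have h4 := hu (j - 1) (by omega)
      exact (sin_neg_of_neg_of_neg_pi_lt (by linarith) (by linarith)).le
    have h5 : ∑ l ∈ Ico j n, sin (θ l - θ i) < 0 := by
      apply Finset.sum_neg
      · intro l hl'
        rw [mem_Ico] at hl'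
        have h2 := hmono (j - 1) l (by omega) (by omega)
        have h3 := hu l (by omega)
        have h4 := hl i (by omega)
        have : sin (θ l - θ i - 2 * π) = sin (θ l - θ i) := sin_sub_two_pi _
        rw [← this]
        exact sin_neg_of_neg_of_neg_pi_lt (by linarith) (by linarith)
      · exact ⟨j, by rw [mem_Ico]; omega⟩
    linarith

theorem sin_sum_bwd {n : ℕ} {θ : ℕ → ℝ} (hmono : ∀ i j, i < j → j < n → θ i < θ j)
    (hl : ∀ i, i < n → -π < θ i) (hu : ∀ i, i < n → θ i ≤ π)
    (hs : ∀ t : ℝ, ∑ l ∈ range n, sin (θ l - t) = 0) {i j : ℕ} (hij : j < i) (hi : i < n)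
    (hne : 0 < j ∨ i + 1 < n) :
    ∑ l ∈ Ico j i, sin (θ l - θ i) < 0 := by
  rcases lt_or_ge (θ i - θ j) π with h | h
  · apply Finset.sum_neg
    · intro l hl'
      rw [mem_Ico] at hl'
      have h2 := hmono l i (by omega) (by omega)
      have h3 : θ j ≤ θ l := by
        rcases Nat.eq_or_lt_of_le hl'.1 with h4 | h4
        · rw [h4]
        · exact (hmono j l h4 (by omega)).le
      exact sin_neg_of_neg_of_neg_pi_lt (by linarith) (by linarith)
    · exact ⟨j, by rw [mem_Ico]; omega⟩
  · have htot := hs (θ i)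
    have hsplit : ∑ l ∈ range n, sin (θ l - θ i) = ∑ l ∈ range j, sin (θ l - θ i)
        + ∑ l ∈ Ico j i, sin (θ l - θ i) + ∑ l ∈ Ico i n, sin (θ l - θ i) := by
      rw [range_eq_Ico, range_eq_Ico, Finset.sum_Ico_consecutive _ (by omega) (by omega),
        Finset.sum_Ico_consecutive _ (by omega) (by omega)]
    have hA : ∀ l, l < j → 0 < sin (θ l - θ i) := by
      intro l hl'
      have h2 := hmono l j hl' (by omega)
      have h3 := hl l (by omega)
      have h4 := hu i (by omega)
      have : sin (θ l - θ i + 2 * π) = sin (θ l - θ i) := sin_add_two_pi _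
      rw [← this]
      exact sin_pos_of_pos_of_lt_pi (by linarith) (by linarith)
    have hB : ∀ l, i < l → l < n → 0 < sin (θ l - θ i) := by
      intro l hl' hln
      have h2 := hmono i l hl' hln
      have h3 := hl j (by omega)
      have h4 := hu l hln
      exact sin_pos_of_pos_of_lt_pi (by linarith) (by linarith)
    have h1 : 0 ≤ ∑ l ∈ range j, sin (θ l - θ i) :=
      Finset.sum_nonneg fun l hl' => (hA l (mem_range.mp hl')).le
    have h1' : 0 ≤ ∑ l ∈ Ico i n, sin (θ l - θ i) := by
      apply Finset.sum_nonneg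
      intro l hl'
      rw [mem_Ico] at hl'
      rcases Nat.eq_or_lt_of_le hl'.1 with h4 | h4
      · rw [← h4]; simp
      · exact (hB l h4 hl'.2).le
    rcases hne with hne | hne
    · have : 0 < ∑ l ∈ range j, sin (θ l - θ i) := by
        apply Finset.sum_pos
        · intro l hl'; exact hA l (mem_range.mp hl')
        · exact ⟨0, mem_range.mpr hne⟩
      linarith
    · have : 0 < ∑ l ∈ Ico i n, sin (θ l - θ i) := by
        apply Finset.sum_pos'
        · intro l hl'
          rw [mem_Ico] at hl'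
          rcases Nat.eq_or_lt_of_le hl'.1 with h4 | h4
          · rw [← h4]; simp
          · exact (hB l h4 hl'.2).le
        · exact ⟨i + 1, by rw [mem_Ico]; omega, hB _ (by omega) hne⟩
      linarith

/-- `Λ` contains a convex equilateral `n`-gon: there are `n` points `P 0, …, P (n-1)` of `Λ`,
`n ≥ 3`, such that all the sides `P i P (i+1)` (cyclically) have the same positive length and, for
every side, all the other vertices lie strictly to the left of the line through that side. -/
def HasConvexEquilateralGon (Λ : Set (ℝ × ℝ)) (n : ℕ) : Prop :=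
  3 ≤ n ∧ ∃ (P : ℕ → ℝ × ℝ) (s : ℝ), 0 < s ∧ (∀ i < n, P i ∈ Λ) ∧
    (∀ i < n, ((P ((i + 1) % n)).1 - (P i).1) ^ 2 + ((P ((i + 1) % n)).2 - (P i).2) ^ 2 = s ^ 2) ∧
    ∀ i < n, ∀ j < n, j ≠ i → j ≠ (i + 1) % n → 0 < cross (P ((i + 1) % n) - P i) (P j - P i)

theorem gon_of_angles {Λ : Set (ℝ × ℝ)} {n : ℕ} (hn : 3 ≤ n) {θ : ℕ → ℝ}
    (hmono : ∀ i j, i < j → j < n → θ i < θ j)
    (hl : ∀ i, i < n → -π < θ i) (hu : ∀ i, i < n → θ i ≤ π) {R : ℝ} (hR : 0 < R)
    (hc : ∑ l ∈ range n, cos (θ l) = 0) (hsn : ∑ l ∈ range n, sin (θ l) = 0)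
    (hΛ : ∀ k < n, (∑ l ∈ range k, (R * cos (θ l), R * sin (θ l))) ∈ Λ) :
    HasConvexEquilateralGon Λ n := by
  have hs : ∀ t : ℝ, ∑ l ∈ range n, sin (θ l - t) = 0 := by
    intro t
    have : ∀ l ∈ range n, sin (θ l - t) = sin (θ l) * cos t - cos (θ l) * sin t :=
      fun l _ => sin_sub _ _
    rw [Finset.sum_congr rfl this, Finset.sum_sub_distrib, ← Finset.sum_mul, ← Finset.sum_mul,
      hc, hsn]
    ring
  set e : ℕ → ℝ × ℝ := fun l => (R * cos (θ l), R * sin (θ l)) with he
  set P : ℕ → ℝ × ℝ := fun k => ∑ l ∈ range k, e l with hP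
  have hPn : P n = 0 := by
    rw [hP]
    apply Prod.ext
    · simp only [he, Prod.fst_sum, ← Finset.mul_sum, hc, mul_zero, Prod.fst_zero]
    · simp only [he, Prod.snd_sum, ← Finset.mul_sum, hsn, mul_zero, Prod.snd_zero]
  have hPsucc : ∀ i < n, P ((i + 1) % n) = P (i + 1) := by
    intro i hi
    rcases Nat.eq_or_lt_of_le (show i + 1 ≤ n by omega) with h | h
    · rw [h, Nat.mod_self, hPn]; simp [hP]
    · rw [Nat.mod_eq_of_lt h]
  have hdiff : ∀ i, P (i + 1) - P i = e i := by
    intro i
    simp only [hP, Finset.sum_range_succ]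
    abel
  have hcross : ∀ i l, cross (e i) (e l) = R ^ 2 * sin (θ l - θ i) := by
    intro i l
    simp only [cross, he, sin_sub]
    ring
  have hcsum : ∀ (i : ℕ) (s : Finset ℕ), cross (e i) (∑ l ∈ s, e l)
      = R ^ 2 * ∑ l ∈ s, sin (θ l - θ i) := by
    intro i s
    rw [Finset.mul_sum]
    have : ∀ l ∈ s, R ^ 2 * sin (θ l - θ i) = cross (e i) (e l) := fun l _ => (hcross i l).symm
    rw [Finset.sum_congr rfl this]
    simp only [cross, Prod.fst_sum, Prod.snd_sum, Finset.mul_sum, Finset.sum_sub_distrib]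
  refine ⟨hn, P, R, hR, hΛ, ?_, ?_⟩
  · intro i hi
    rw [hPsucc i hi]
    have h1 := congrArg Prod.fst (hdiff i)
    have h2 := congrArg Prod.snd (hdiff i)
    simp only [Prod.fst_sub, Prod.snd_sub] at h1 h2
    rw [h1, h2]
    simp only [he]
    have := sin_sq_add_cos_sq (θ i)
    linear_combination R ^ 2 * this
  · intro i hi j hj hji hji'
    rw [hPsucc i hi, hdiff i]
    have hR2 : 0 < R ^ 2 := by positivity
    rcases lt_or_gt_of_ne hji with h | h
    · have h1 : P j - P i = -∑ l ∈ Ico j i, e l := by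
        rw [Finset.sum_Ico_eq_sub _ h.le]; simp only [hP]; abel
      have h2 : cross (e i) (-∑ l ∈ Ico j i, e l) = -cross (e i) (∑ l ∈ Ico j i, e l) := by
        simp only [cross, Prod.fst_neg, Prod.snd_neg]; ring
      rw [h1, h2, hcsum]
      have h3 := sin_sum_bwd hmono hl hu hs h hi (by
        rcases Nat.eq_or_lt_of_le (show i + 1 ≤ n by omega) with h | h
        · left
          rw [h, Nat.mod_self] at hji'
          omega
        · right; exact h)
      nlinarith
    · have h1 : P j - P i = ∑ l ∈ Ico i j, e l := by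
        rw [Finset.sum_Ico_eq_sub _ h.le]
      rw [h1, hcsum]
      have h4 : i + 1 < j := by
        rw [Nat.mod_eq_of_lt (by omega)] at hji'
        omega
      have h3 := sin_sum_fwd hmono hl hu hs h4 hj
      positivity

/-- The rectangular lattice `Λ(m)` generated by `(1, 0)` and `(0, √m)`. -/
def Lat (m : ℕ) : Set (ℝ × ℝ) := {p | ∃ a b : ℤ, p = ((a : ℝ), (b : ℝ) * √(m : ℝ))}

theorem gon_of_vectors {ι : Type} [Fintype ι] {m n : ℕ} (hm : 0 < m) (hn : 3 ≤ n)
    (hcard : Fintype.card ι = n) (e : ι → ℤ × ℤ) (N : ℤ) (hinj : Function.Injective e)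
    (hN : 0 < N) (hnorm : ∀ i, (e i).1 ^ 2 + (m : ℤ) * (e i).2 ^ 2 = N) (hsum : ∑ i, e i = 0) :
    HasConvexEquilateralGon (Lat m) n := by
  classical
  have hm' : (0 : ℝ) < m := by exact_mod_cast hm
  have hsm : √(m : ℝ) ^ 2 = m := Real.sq_sqrt hm'.le
  have hsm0 : √(m : ℝ) ≠ 0 := (Real.sqrt_pos.mpr hm').ne'
  have hN' : (0 : ℝ) < N := by exact_mod_cast hN
  set R : ℝ := √(N : ℝ) with hRdef
  have hR : 0 < R := Real.sqrt_pos.mpr hN'
  let z : ι → ℂ := fun i => ⟨(e i).1, (e i).2 * √(m : ℝ)⟩
  have hz : ∀ i, ‖z i‖ = R := by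
    intro i
    rw [hRdef, Complex.norm_def, Complex.normSq_apply]
    congr 1
    have := hnorm i
    have h2 : ((e i).1 : ℝ) ^ 2 + (m : ℝ) * ((e i).2 : ℝ) ^ 2 = N := by exact_mod_cast this
    simp only [z]
    rw [← h2]
    linear_combination ((e i).2 : ℝ) ^ 2 * hsm
  let φ : ι → ℝ := fun i => Complex.arg (z i)
  have hcos : ∀ i, R * cos (φ i) = (e i).1 := by
    intro i
    rw [← hz i]
    exact Complex.norm_mul_cos_arg (z i)
  have hsin : ∀ i, R * sin (φ i) = (e i).2 * √(m : ℝ) := by
    intro i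
    rw [← hz i]
    exact Complex.norm_mul_sin_arg (z i)
  have hφ : Function.Injective φ := by
    intro i j hij
    apply hinj
    have h1 := hcos i
    have h2 := hsin i
    rw [hij] at h1 h2
    rw [hcos j] at h1
    rw [hsin j] at h2
    apply Prod.ext
    · exact_mod_cast h1.symm
    · have := mul_right_cancel₀ hsm0 h2
      exact_mod_cast this.symm
  let T : Finset ℝ := Finset.univ.image φ
  have hT : T.card = n := by
    rw [Finset.card_image_of_injective _ hφ, Finset.card_univ, hcard]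
  let g : Fin n ↪o ℝ := T.orderEmbOfFin hT
  have hg : ∀ k, ∃ i, φ i = g k := by
    intro k
    have := T.orderEmbOfFin_mem hT k
    rw [Finset.mem_image] at this
    obtain ⟨i, _, hi⟩ := this
    exact ⟨i, hi⟩
  choose σ hσ using hg
  have hσinj : Function.Injective σ := by
    intro k l hkl
    apply g.injective
    rw [← hσ k, ← hσ l, hkl]
  have hσbij : Function.Bijective σ := by
    rw [Fintype.bijective_iff_injective_and_card]
    exact ⟨hσinj, by rw [Fintype.card_fin, hcard]⟩
  let θ : ℕ → ℝ := fun k => if h : k < n then g ⟨k, h⟩ else 0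
  have hθ : ∀ k (h : k < n), θ k = φ (σ ⟨k, h⟩) := by
    intro k h
    simp only [θ, dif_pos h, hσ]
  have hsumF : ∀ F : ℝ → ℝ, ∑ l ∈ Finset.range n, F (θ l) = ∑ i, F (φ i) := by
    intro F
    rw [Finset.sum_range]
    rw [← Function.Bijective.sum_comp hσbij (fun i => F (φ i))]
    apply Finset.sum_congr rfl
    intro k _
    rw [hθ k k.2]
  have hc0 : ∑ i, cos (φ i) = 0 := by
    have h1 : R * ∑ i, cos (φ i) = 0 := by
      rw [Finset.mul_sum, Finset.sum_congr rfl (fun i _ => hcos i)]
      have := congrArg Prod.fst hsum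
      rw [Prod.fst_sum] at this
      have h2 : ∑ i, (e i).1 = 0 := by simpa using this
      exact_mod_cast h2
    exact (mul_eq_zero.mp h1).resolve_left hR.ne'
  have hs0 : ∑ i, sin (φ i) = 0 := by
    have h1 : R * ∑ i, sin (φ i) = 0 := by
      rw [Finset.mul_sum, Finset.sum_congr rfl (fun i _ => hsin i), ← Finset.sum_mul]
      have := congrArg Prod.snd hsum
      rw [Prod.snd_sum] at this
      have h2 : ∑ i, (e i).2 = 0 := by simpa using this
      have h3 : (∑ i, ((e i).2 : ℝ)) = 0 := by exact_mod_cast h2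
      rw [h3, zero_mul]
    exact (mul_eq_zero.mp h1).resolve_left hR.ne'
  refine gon_of_angles hn (θ := θ) ?_ ?_ ?_ hR ?_ ?_ ?_
  · intro i j hij hj
    simp only [θ, dif_pos hj, dif_pos (hij.trans hj)]
    exact g.strictMono (by exact hij)
  · intro i hi
    rw [hθ i hi]
    exact Complex.neg_pi_lt_arg _
  · intro i hi
    rw [hθ i hi]
    exact Complex.arg_le_pi _
  · rw [hsumF cos, hc0]
  · rw [hsumF sin, hs0]
  · intro k hk
    have : ∀ k, k ≤ n → (∑ l ∈ Finset.range k, (R * cos (θ l), R * sin (θ l))) ∈ Lat m := by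
      intro k
      induction k with
      | zero => intro _; exact ⟨0, 0, by simp [Prod.ext_iff]⟩
      | succ k ih =>
        intro hk
        obtain ⟨a, b, hab⟩ := ih (by omega)
        rw [Finset.sum_range_succ, hab, hθ k (by omega), hcos, hsin]
        refine ⟨a + (e (σ ⟨k, by omega⟩)).1, b + (e (σ ⟨k, by omega⟩)).2, ?_⟩
        apply Prod.ext
        · simp
        · simp; ring
    exact this k hk.le

end Pool.Agent.Helper917Lat
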