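import Pool.Agent.Helper917_Lat.A

namespace Pool.Agent.Helper917Lat

theorem gen_step {k C x y a b : ℚ} (hp : x ^ 2 + y ^ 2 + k * (x * y) ^ 2 = C)
    (G2 : a ^ 2 + b ^ 2 + k * C * (a * b) ^ 2 = 1)
    (h1 : 1 - k * a * b * (x * y) ≠ 0) (h2 : 1 + k * a * b * (x * y) ≠ 0) :
    ((b * x + a * y) * (1 - k * a * b * (x * y))⁻¹) ^ 2
      + ((b * y - a * x) * (1 + k * a * b * (x * y))⁻¹) ^ 2
      + k * (((b * x + a * y) * (1 - k * a * b * (x * y))⁻¹)
        * ((b * y - a * x) * (1 + k * a * b * (x * y))⁻¹)) ^ 2 = C := by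
  have e1 : (x ^ 2 + y ^ 2) + k * (a ^ 2 + b ^ 2) * (x * y) ^ 2
      = C * (1 - (k * a * b * (x * y)) ^ 2) := by
    linear_combination hp + k * (x * y) ^ 2 * G2
  have e2 : (a ^ 2 + b ^ 2) + k * (a * b) ^ 2 * (x ^ 2 + y ^ 2)
      = 1 - (k * a * b * (x * y)) ^ 2 := by
    linear_combination G2 + k * (a * b) ^ 2 * hp
  have e3 : (b * x + a * y) ^ 2 * (1 + k * a * b * (x * y)) ^ 2
      + (b * y - a * x) ^ 2 * (1 - k * a * b * (x * y)) ^ 2
      + k * ((b * x + a * y) * (b * y - a * x)) ^ 2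
      = C * (1 - k * a * b * (x * y)) ^ 2 * (1 + k * a * b * (x * y)) ^ 2 := by
    have : (b * x + a * y) ^ 2 * (1 + k * a * b * (x * y)) ^ 2
      + (b * y - a * x) ^ 2 * (1 - k * a * b * (x * y)) ^ 2
      + k * ((b * x + a * y) * (b * y - a * x)) ^ 2
      = ((x ^ 2 + y ^ 2) + k * (a ^ 2 + b ^ 2) * (x * y) ^ 2) *
        ((a ^ 2 + b ^ 2) + k * (a * b) ^ 2 * (x ^ 2 + y ^ 2)) := by ring
    rw [this, e1, e2]; ring
  have hu : (1 - k * a * b * (x * y)) * (1 - k * a * b * (x * y))⁻¹ = 1 := mul_inv_cancel₀ h1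
  have hv : (1 + k * a * b * (x * y)) * (1 + k * a * b * (x * y))⁻¹ = 1 := mul_inv_cancel₀ h2
  generalize (1 - k * a * b * (x * y))⁻¹ = u at hu ⊢
  generalize (1 + k * a * b * (x * y))⁻¹ = v at hv ⊢
  calc ((b * x + a * y) * u) ^ 2 + ((b * y - a * x) * v) ^ 2
        + k * ((b * x + a * y) * u * ((b * y - a * x) * v)) ^ 2
      = ((b * x + a * y) * u) ^ 2 * ((1 + k * a * b * (x * y)) * v) ^ 2
        + ((b * y - a * x) * v) ^ 2 * ((1 - k * a * b * (x * y)) * u) ^ 2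
        + k * ((b * x + a * y) * u * ((b * y - a * x) * v)) ^ 2 := by rw [hu, hv]; ring
    _ = (u * v) ^ 2 * ((b * x + a * y) ^ 2 * (1 + k * a * b * (x * y)) ^ 2
      + (b * y - a * x) ^ 2 * (1 - k * a * b * (x * y)) ^ 2
      + k * ((b * x + a * y) * (b * y - a * x)) ^ 2) := by ring
    _ = C * ((1 - k * a * b * (x * y)) * u) ^ 2 * ((1 + k * a * b * (x * y)) * v) ^ 2 := by
        rw [e3]; ring
    _ = C := by rw [hu, hv]; ring

theorem unitOf {p : ℤ} (hp : 2 ≤ p) {j : ℕ} (hj : 1 ≤ j) {d : ℚ} (hd : I p j (d - 1)) :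
    d ≠ 0 ∧ I p 0 d⁻¹ ∧ I p j (d⁻¹ - 1) := by
  obtain ⟨a, b, hb, h⟩ := hd
  have hc : IsCoprime (b + p ^ j * a) p := by
    have : b + p ^ j * a = b + p * (p ^ (j - 1) * a) := by
      conv_lhs => rw [← Nat.sub_add_cancel hj, pow_succ]
      ring
    rw [this]; exact IsCoprime.add_mul_left_left hb _
  have hdb : d * b = ((b + p ^ j * a : ℤ) : ℚ) := by push_cast; linear_combination h
  have hd0 : d ≠ 0 := by
    intro h0
    rw [h0, zero_mul] at hdb
    have : (b + p ^ j * a : ℤ) = 0 := by exact_mod_cast hdb.symm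
    rw [this, isCoprime_zero_left, Int.isUnit_iff] at hc
    omega
  refine ⟨hd0, ⟨b, b + p ^ j * a, hc, ?_⟩, -a, b + p ^ j * a, hc, ?_⟩
  · rw [← hdb]; field_simp
  · rw [← hdb]
    field_simp
    push_cast
    linear_combination -h

theorem I.cancel {p : ℤ} (hp : p ≠ 0) {j : ℕ} {r : ℚ} (h : I p (j + 1) ((p : ℚ) * r)) :
    I p j r := by
  obtain ⟨a, b, hb, h⟩ := h
  refine ⟨a, b, hb, ?_⟩
  have hp' : (p : ℚ) ≠ 0 := by exact_mod_cast hp
  apply mul_left_cancel₀ hp'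
  rw [pow_succ] at h
  linear_combination h

theorem not_one_I {p : ℤ} (hp : 2 ≤ p) : ¬ I p 1 1 := by
  intro h
  have h1 : I p 1 ((1 : ℤ) : ℚ) := by simpa using h
  have h2 := dvd_of_I1 h1
  have := Int.eq_one_of_dvd_one (by omega) h2
  omega

/-- exact order of a nonzero rational -/
theorem exact_order {p : ℤ} (hp : 2 ≤ p) {r : ℚ} (hr : r ≠ 0) {v : ℕ} (h : I p v r) :
    ∃ u, v ≤ u ∧ I p u r ∧ ¬ I p (u + 1) r := by
  classical
  by_contra hcon
  push Not at hcon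
  have hall : ∀ u, v ≤ u → I p u r := by
    intro u hu
    induction u, hu using Nat.le_induction with
    | base => exact h
    | succ u hu ih => exact hcon u hu ih
  have hnum : ∀ u, v ≤ u → p ^ u ∣ r.num := by
    intro u hu
    obtain ⟨a, b, hb, h⟩ := hall u hu
    have h1 : r.num * b = p ^ u * (a * r.den) := by
      have h2 : (r.num : ℚ) * b = (p : ℚ) ^ u * (a * r.den) := by
        have h3 : (r.num : ℚ) = r * r.den := (Rat.mul_den_eq_num r).symm
        rw [h3]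
        linear_combination (r.den : ℚ) * h
      exact_mod_cast h2
    exact (IsCoprime.pow_left (m := u) hb.symm).dvd_of_dvd_mul_right ⟨_, h1⟩
  have hne : r.num ≠ 0 := Rat.num_ne_zero.mpr hr
  obtain ⟨u, hu⟩ : ∃ u : ℕ, |r.num| < p ^ u := by
    obtain ⟨u, hu⟩ := pow_unbounded_of_one_lt |r.num| (show (1 : ℤ) < p by omega)
    exact ⟨u, hu⟩
  have h3 := hnum (max u v) (le_max_right _ _)
  have h4 := Int.le_of_dvd (abs_pos.mpr hne) ((dvd_abs _ _).mpr h3)
  have h5 : p ^ u ≤ p ^ (max u v) := pow_le_pow_right₀ (by omega) (le_max_left _ _)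
  omega

def Rel (k' α β : ℚ) : Prop := α ^ 2 + β ^ 2 + k' * (α * β) ^ 2 = 1

theorem I.one (p : ℤ) : I p 0 1 := by simpa using I.int p 1

theorem add_good {p : ℤ} (hp : 2 ≤ p) {m k' α₁ β₁ α₂ β₂ : ℚ} {v : ℕ} (hv : 1 ≤ v) (hm0 : m ≠ 0)
    (hmI : I p 0 m) (hK : I p 0 (k' * m ^ 2)) (r₁ : Rel k' α₁ β₁) (r₂ : Rel k' α₂ β₂)
    (a₁ : I p v (α₁ / m)) (a₂ : I p v (α₂ / m)) (b₁ : I p (v + 1) (β₁ - 1))
    (b₂ : I p (v + 1) (β₂ - 1)) :
    ∃ α₃ β₃, Rel k' α₃ β₃ ∧ I p (v + 2) (α₃ / m - α₁ / m - α₂ / m) ∧ I p (v + 1) (β₃ - 1) := by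
  have hb₁ : I p 0 β₁ := by
    have := (b₁.mono (Nat.zero_le _)).add (I.one p); simpa using this
  have hb₂ : I p 0 β₂ := by
    have := (b₂.mono (Nat.zero_le _)).add (I.one p); simpa using this
  have hD : I p (v + 2) ((k' * m ^ 2) * ((α₂ / m) * β₂ * ((α₁ / m) * β₁)) * 1) → True := fun _ => trivial
  have hD0 : I p (v + v) ((k' * m ^ 2) * ((α₂ / m) * (α₁ / m) * (β₂ * β₁))) := by
    have := hK.mul ((a₂.mul a₁).mul (hb₂.mul hb₁))
    simpa using this
  have hDe : k' * α₂ * β₂ * (α₁ * β₁) = (k' * m ^ 2) * ((α₂ / m) * (α₁ / m) * (β₂ * β₁)) := by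
    field_simp
  have hDI : I p (v + v) (k' * α₂ * β₂ * (α₁ * β₁)) := by rw [hDe]; exact hD0
  have hu := unitOf hp (j := v + v) (by omega) (d := 1 - k' * α₂ * β₂ * (α₁ * β₁)) (by
    have e : 1 - k' * α₂ * β₂ * (α₁ * β₁) - 1 = -(k' * α₂ * β₂ * (α₁ * β₁)) := by ring
    rw [e]; exact hDI.neg)
  have hw := unitOf hp (j := v + v) (by omega) (d := 1 + k' * α₂ * β₂ * (α₁ * β₁)) (by
    have e : 1 + k' * α₂ * β₂ * (α₁ * β₁) - 1 = (k' * α₂ * β₂ * (α₁ * β₁)) := by ring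
    rw [e]; exact hDI)
  refine ⟨(β₂ * α₁ + α₂ * β₁) * (1 - k' * α₂ * β₂ * (α₁ * β₁))⁻¹,
    (β₂ * β₁ - α₂ * α₁) * (1 + k' * α₂ * β₂ * (α₁ * β₁))⁻¹, ?_, ?_, ?_⟩
  · exact gen_step (C := 1) (by simpa [Rel] using r₁) (by simpa [Rel] using r₂) hu.1 hw.1
  · set U := (1 - k' * α₂ * β₂ * (α₁ * β₁))⁻¹ with hU
    have e : (β₂ * α₁ + α₂ * β₁) * U / m - α₁ / m - α₂ / m
        = (β₂ - 1) * (α₁ / m) + (β₁ - 1) * (α₂ / m)
          + (β₂ * (α₁ / m) + (α₂ / m) * β₁) * (U - 1) := by ring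
    rw [e]
    have t1 := (b₂.mul a₁).mono (show v + 2 ≤ v + 1 + v by omega)
    have t2 := (b₁.mul a₂).mono (show v + 2 ≤ v + 1 + v by omega)
    have t3 := (((hb₂.mul a₁).mono (show v ≤ 0 + v by omega)).add
      ((a₂.mul hb₁).mono (show v ≤ v + 0 by omega))).mul hu.2.2
    exact (t1.add t2).add (t3.mono (by omega))
  · set W := (1 + k' * α₂ * β₂ * (α₁ * β₁))⁻¹ with hW
    have e : (β₂ * β₁ - α₂ * α₁) * W - 1
        = ((β₂ - 1) * β₁ + (β₁ - 1) - m * m * ((α₂ / m) * (α₁ / m))) * W + (W - 1) := by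
      field_simp
      ring
    rw [e]
    have t1 := (b₂.mul hb₁).mono (show v + 1 ≤ v + 1 + 0 by omega)
    have t2 := ((hmI.mul hmI).mul (a₂.mul a₁)).mono (show v + 1 ≤ 0 + 0 + (v + v) by omega)
    have t3 := (((t1.add b₁).sub t2).mul hw.2.1).mono (show v + 1 ≤ v + 1 + 0 by omega)
    exact t3.add (hw.2.2.mono (by omega))

theorem mult_good {p : ℤ} (hp : 2 ≤ p) {m k' α β : ℚ} {v : ℕ} (hv : 1 ≤ v) (hm0 : m ≠ 0)
    (hmI : I p 0 m) (hK : I p 0 (k' * m ^ 2)) (r : Rel k' α β)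
    (a : I p v (α / m)) (b : I p (v + 1) (β - 1)) (j : ℕ) :
    ∃ α' β', Rel k' α' β' ∧ I p (v + 2) (α' / m - (j : ℤ) * (α / m)) ∧ I p (v + 1) (β' - 1) := by
  induction j with
  | zero =>
    refine ⟨0, 1, by unfold Rel; ring, ?_, ?_⟩
    · simp [I.zero]
    · simp [I.zero]
  | succ j ih =>
    obtain ⟨α', β', hr, ha, hb⟩ := ih
    have ha' : I p v (α' / m) := by
      have h1 := (ha.mono (show v ≤ v + 2 by omega)).add
        (((I.int p (j : ℤ)).mul a).mono (show v ≤ 0 + v by omega))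
      have e : α' / m - ((j : ℤ) : ℚ) * (α / m) + ((j : ℤ) : ℚ) * (α / m) = α' / m := by ring
      rwa [e] at h1
    obtain ⟨α₃, β₃, h3, h4, h5⟩ := add_good hp hv hm0 hmI hK hr r ha' a hb b
    refine ⟨α₃, β₃, h3, ?_, h5⟩
    have e : α₃ / m - (((j + 1 : ℕ) : ℤ) : ℚ) * (α / m)
        = (α₃ / m - α' / m - α / m) + (α' / m - ((j : ℤ) : ℚ) * (α / m)) := by push_cast; ring
    rw [e]
    exact h4.add ha

/-- sharpening -/
theorem sharpen {p : ℤ} (hpp : Prime p) (hp : 2 ≤ p) {m k' α β : ℚ} {v : ℕ} (hv : 1 ≤ v)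
    (hv2 : p = 2 → 2 ≤ v) (hm0 : m ≠ 0)
    (hmI : I p 0 m) (hK : I p 0 (k' * m ^ 2)) (r : Rel k' α β)
    (a : I p v (α / m)) (b : I p 2 (β - 1)) : I p (v + 1) (β - 1) := by
  have hb : I p 0 β := by
    have := (b.mono (Nat.zero_le _)).add (I.one p); simpa using this
  have hsq : I p (v + v) ((β - 1) * (β + 1)) := by
    have e : (β - 1) * (β + 1) = -((α / m * (α / m)) * (m * m + (k' * m ^ 2) * (β * β))) := by
      unfold Rel at r
      field_simp
      linear_combination r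
    rw [e]
    have := ((a.mul a).mul ((hmI.mul hmI).add (hK.mul (hb.mul hb)))).neg
    simpa using this
  rcases eq_or_ne p 2 with h2 | h2
  · subst h2
    have h1 : I 2 1 ((β - 1) / 2) := by
      apply I.cancel (by norm_num)
      have e : ((2 : ℤ) : ℚ) * ((β - 1) / 2) = β - 1 := by push_cast; ring
      rw [e]; exact b
    have hu := unitOf hp (j := 1) le_rfl (d := 1 + (β - 1) / 2) (by
      have e : 1 + (β - 1) / 2 - 1 = (β - 1) / 2 := by ring
      rw [e]; exact h1)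
    have h3 : I 2 (v + v) (((2 : ℤ) : ℚ) * (β - 1)) := by
      have e : ((2 : ℤ) : ℚ) * (β - 1) = ((β - 1) * (β + 1)) * (1 + (β - 1) / 2)⁻¹ := by
        have h0 := hu.1
        have e2 : β + 1 = 2 * (1 + (β - 1) / 2) := by ring
        rw [e2]
        generalize (1 + (β - 1) / 2) = d at h0
        push_cast
        field_simp
      rw [e]
      have := hsq.mul hu.2.1
      simpa using this
    have h4 : I 2 (v + v - 1) (β - 1) := by
      apply I.cancel (by norm_num)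
      rw [Nat.sub_add_cancel (by omega)]
      exact h3
    exact h4.mono (by have := hv2 rfl; omega)
  · have hc : IsCoprime (2 : ℤ) p := by
      rw [Prime.coprime_iff_not_dvd Int.prime_two]
      intro h
      have h5 : (2 : ℤ) = p := by
        have h6 := (Int.prime_two.associated_of_dvd hpp h)
        rcases Int.associated_iff.mp h6 with h7 | h7 <;> omega
      exact h2 h5.symm
    have hhalf : I p 0 ((2 : ℚ)⁻¹) := ⟨1, 2, hc, by norm_num⟩
    have h1 : I p 1 ((β - 1) * 2⁻¹) := by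
      have := b.mul hhalf
      exact this.mono (by omega)
    have hu := unitOf hp (j := 1) le_rfl (d := 1 + (β - 1) * 2⁻¹) (by
      have e : 1 + (β - 1) * 2⁻¹ - 1 = (β - 1) * 2⁻¹ := by ring
      rw [e]; exact h1)
    have e : β - 1 = ((β - 1) * (β + 1)) * ((1 + (β - 1) * 2⁻¹)⁻¹ * 2⁻¹) := by
      have h0 := hu.1
      have e2 : β + 1 = 2 * (1 + (β - 1) * 2⁻¹) := by ring
      rw [e2]
      generalize (1 + (β - 1) * 2⁻¹) = d at h0
      field_simp
    rw [e]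
    have := hsq.mul (hu.2.1.mul hhalf)
    exact this.mono (by omega)

/-- arbitrarily deep elements of the auxiliary group -/
theorem deep {p : ℤ} (hpp : Prime p) (hp : 2 ≤ p) {m k' α β : ℚ} {v : ℕ} (hv : 1 ≤ v)
    (hv2 : p = 2 → 2 ≤ v) (hm0 : m ≠ 0)
    (hmI : I p 0 m) (hK : I p 0 (k' * m ^ 2)) (r : Rel k' α β)
    (a : I p v (α / m)) (a' : ¬ I p (v + 1) (α / m)) (b : I p 2 (β - 1)) (k : ℕ) :
    ∃ α' β', Rel k' α' β' ∧ I p (v + k) (α' / m) ∧ ¬ I p (v + k + 1) (α' / m) ∧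
      I p (v + k + 1) (β' - 1) := by
  induction k with
  | zero =>
    exact ⟨α, β, r, a, a', sharpen hpp hp hv hv2 hm0 hmI hK r a b⟩
  | succ k ih =>
    obtain ⟨α₁, β₁, r₁, h1, h2, h3⟩ := ih
    obtain ⟨α₂, β₂, r₂, h4, h5⟩ := mult_good hp (show 1 ≤ v + k by omega) hm0 hmI hK r₁ h1 h3
      p.toNat
    have hpn : ((p.toNat : ℤ) : ℚ) = (p : ℚ) := by
      rw [Int.toNat_of_nonneg (by omega)]
    rw [hpn] at h4
    have h6 : I p (v + k + 1) (α₂ / m) := by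
      have h7 := (h4.mono (show v + k + 1 ≤ v + k + 2 by omega)).add
        (((I.self p).mul h1).mono (show v + k + 1 ≤ 1 + (v + k) by omega))
      have e : α₂ / m - (p : ℚ) * (α₁ / m) + (p : ℚ) * (α₁ / m) = α₂ / m := by ring
      rwa [e] at h7
    refine ⟨α₂, β₂, r₂, h6, ?_, ?_⟩
    · intro hcon
      apply h2
      apply I.cancel (show p ≠ 0 by omega)
      have h7 := hcon.sub h4
      have e : α₂ / m - (α₂ / m - (p : ℚ) * (α₁ / m)) = (p : ℚ) * (α₁ / m) := by ring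
      rwa [e] at h7
    · exact sharpen hpp hp (show 1 ≤ v + (k + 1) by omega) (fun h => by have := hv2 h; omega) hm0
        hmI hK r₂ h6 (h5.mono (by omega))

/-- unit at `p` -/
def Un (p : ℤ) (x : ℚ) : Prop := x ≠ 0 ∧ I p 0 x ∧ I p 0 x⁻¹

theorem Un.mul {p : ℤ} {x y : ℚ} (hx : Un p x) (hy : Un p y) : Un p (x * y) := by
  refine ⟨mul_ne_zero hx.1 hy.1, by simpa using hx.2.1.mul hy.2.1, ?_⟩
  rw [mul_inv]; simpa using hx.2.2.mul hy.2.2

theorem Un.of_one {p : ℤ} (hp : 2 ≤ p) {d : ℚ} (hd : I p 1 (d - 1)) : Un p d := by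
  have h := unitOf hp le_rfl hd
  refine ⟨h.1, ?_, h.2.1⟩
  have := (hd.mono (Nat.zero_le 1)).add (I.one p); simpa using this

theorem Un.add {p : ℤ} (hp : 2 ≤ p) {x s : ℚ} (hx : Un p x) (hs : I p 1 s) : Un p (x + s) := by
  have h1 : Un p (1 + s * x⁻¹) := by
    apply Un.of_one hp
    have e : 1 + s * x⁻¹ - 1 = s * x⁻¹ := by ring
    rw [e]; simpa using hs.mul hx.2.2
  have e : x + s = x * (1 + s * x⁻¹) := by
    have := hx.1
    field_simp
  rw [e]; exact hx.mul h1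

theorem Un.not_I {p : ℤ} (hp : 2 ≤ p) {x : ℚ} (hx : Un p x) : ¬ I p 1 x := by
  intro h
  apply not_one_I hp
  have h1 := h.mul hx.2.2
  rw [mul_inv_cancel₀ hx.1] at h1
  simpa using h1

/-- Translating the point `(x, y)` by a deep element. -/
theorem translate {p : ℤ} (hp : 2 ≤ p) {m x y α β : ℚ} (hm : 0 < m) (hmI : I p 0 m)
    (hx : Un p x) (hw : I p 1 (x * y / m)) {v : ℕ} (hv : 1 ≤ v)
    (hk : Rel ((2 * m + (x ^ 2 + y ^ 2)) / (m ^ 2 - (x * y) ^ 2)
      * (x ^ 2 + y ^ 2 + (2 * m + (x ^ 2 + y ^ 2)) / (m ^ 2 - (x * y) ^ 2) * (x * y) ^ 2)) α β)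
    (a : I p v (α / m)) (a' : ¬ I p (v + 1) (α / m)) (b : I p (v + 1) (β - 1)) :
    ∃ x' y', Un p x' ∧ I p 1 (x' * y' / m) ∧
      1 / (m + x' ^ 2) + 1 / (m + y' ^ 2) = 1 / (m + x ^ 2) + 1 / (m + y ^ 2) ∧
      I p v (y' / m - y / m) ∧ ¬ I p (v + 1) (y' / m - y / m) := by
  set w := x * y / m with hwdef
  set Y := y / m with hY
  have hm0 : m ≠ 0 := hm.ne'
  have hYe : Y = w * x⁻¹ := by
    have := hx.1
    rw [hwdef, hY]; field_simp
  have hYI : I p 1 Y := by rw [hYe]; simpa using hw.mul hx.2.2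
  have hyI : I p 1 y := by
    have e : y = Y * m := by rw [hY]; field_simp
    rw [e]; simpa using hYI.mul hmI
  have h1w : Un p (1 - w * w) := by
    apply Un.of_one hp
    have e : 1 - w * w - 1 = -(w * w) := by ring
    rw [e]; exact (hw.mul hw).neg.mono (by omega)
  set s := x ^ 2 + y ^ 2 with hs
  have ht : m ^ 2 - (x * y) ^ 2 = m ^ 2 * (1 - w * w) := by
    rw [hwdef]; field_simp
  have ht0 : m ^ 2 - (x * y) ^ 2 ≠ 0 := by rw [ht]; exact mul_ne_zero (by positivity) h1w.1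
  set k := (2 * m + s) / (m ^ 2 - (x * y) ^ 2) with hkdef
  have hsI : I p 0 s := by
    have h1 := (hx.2.1.mul hx.2.1).add ((hyI.mul hyI).mono (show 0 + 0 ≤ 1 + 1 by omega))
    have e : s = x * x + y * y := by rw [hs]; ring
    rw [e]; exact h1
  have h2ms : I p 0 (2 * m + s) := by
    have h2 : I p 0 (2 : ℚ) := by simpa using I.int p 2
    exact ((h2.mul hmI).mono (by omega)).add hsI
  -- the small quantity
  have hβ : I p 0 β := by
    have := (b.mono (Nat.zero_le _)).add (I.one p); simpa using this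
  have hε : k * α * β * (x * y) = (2 * m + s) * (1 - w * w)⁻¹ * w * (α / m) * β := by
    rw [hkdef, ht, hwdef]
    have := h1w.1
    rw [hwdef] at this
    field_simp
  have hεI : I p (v + 1) (k * α * β * (x * y)) := by
    rw [hε]
    have := (((h2ms.mul h1w.2.2).mul hw).mul a).mul hβ
    exact this.mono (by omega)
  have hu := unitOf hp (j := v + 1) (by omega) (d := 1 - k * α * β * (x * y)) (by
    have e : 1 - k * α * β * (x * y) - 1 = -(k * α * β * (x * y)) := by ring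
    rw [e]; exact hεI.neg)
  have hz := unitOf hp (j := v + 1) (by omega) (d := 1 + k * α * β * (x * y)) (by
    have e : 1 + k * α * β * (x * y) - 1 = (k * α * β * (x * y)) := by ring
    rw [e]; exact hεI)
  have hcurve := gen_step (k := k) (C := s + k * (x * y) ^ 2) (x := x) (y := y) (a := α) (b := β)
    (by rw [hs]) hk hu.1 hz.1
  have hαI : I p v α := by
    have e : α = α / m * m := by field_simp
    rw [e]; simpa using a.mul hmI
  -- x' is a unit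
  have hx' : Un p ((β * x + α * y) * (1 - k * α * β * (x * y))⁻¹) := by
    have h1 : Un p (β * x + α * y) := by
      have e : β * x + α * y = x + ((β - 1) * x + α * y) := by ring
      rw [e]
      exact hx.add hp (((b.mul hx.2.1).mono (by omega)).add ((hαI.mul hyI).mono (by omega)))
    have h2 : Un p (1 - k * α * β * (x * y)) := by
      apply Un.of_one hp
      have e : 1 - k * α * β * (x * y) - 1 = -(k * α * β * (x * y)) := by ring
      rw [e]; exact hεI.neg.mono (by omega)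
    refine h1.mul ⟨inv_ne_zero h2.1, h2.2.2, ?_⟩
    rw [inv_inv]; exact h2.2.1
  have hy'Y : I p (v + 1) ((β * y - α * x) * (1 + k * α * β * (x * y))⁻¹ / m - Y
      + (α / m) * x) := by
    have e : (β * y - α * x) * (1 + k * α * β * (x * y))⁻¹ / m - Y + (α / m) * x
        = (β - 1) * Y + (β * Y - (α / m) * x) * ((1 + k * α * β * (x * y))⁻¹ - 1) := by
      rw [hY]; ring
    rw [e]
    have t1 := (b.mul hYI).mono (show v + 1 ≤ v + 1 + 1 by omega)
    have t2 := (((hβ.mul hYI).mono (Nat.zero_le _)).sub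
      ((a.mul hx.2.1).mono (Nat.zero_le _))).mul hz.2.2
    exact t1.add (t2.mono (by omega))
  have hax : I p v ((α / m) * x) := by simpa using a.mul hx.2.1
  refine ⟨(β * x + α * y) * (1 - k * α * β * (x * y))⁻¹,
    (β * y - α * x) * (1 + k * α * β * (x * y))⁻¹, hx', ?_, ?_, ?_, ?_⟩
  · have h1 : I p 1 ((β * y - α * x) * (1 + k * α * β * (x * y))⁻¹ / m) := by
      have h2 := ((hy'Y.mono (show 1 ≤ v + 1 by omega)).add hYI).sub (hax.mono hv)
      have e : (β * y - α * x) * (1 + k * α * β * (x * y))⁻¹ / m - Y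
          + (α / m) * x + Y - (α / m) * x
        = (β * y - α * x) * (1 + k * α * β * (x * y))⁻¹ / m := by ring
      rwa [e] at h2
    have h3 := hx'.2.1.mul h1
    rw [mul_div_assoc]
    simpa using h3
  · generalize (β * x + α * y) * (1 - k * α * β * (x * y))⁻¹ = x' at hcurve ⊢
    generalize (β * y - α * x) * (1 + k * α * β * (x * y))⁻¹ = y' at hcurve ⊢
    have h1 : k * (m ^ 2 - (x * y) ^ 2) = 2 * m + s := by
      rw [hkdef]; exact div_mul_cancel₀ _ ht0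
    have h2 : k * (m ^ 2 - (x' * y') ^ 2) = 2 * m + (x' ^ 2 + y' ^ 2) := by
      linear_combination h1 - hcurve
    have hX : m + x ^ 2 ≠ 0 := by positivity
    have hY' : m + y ^ 2 ≠ 0 := by positivity
    have hX' : m + x' ^ 2 ≠ 0 := by positivity
    have hY'' : m + y' ^ 2 ≠ 0 := by positivity
    rw [div_add_div _ _ hX' hY'', div_add_div _ _ hX hY',
      div_eq_div_iff (mul_ne_zero hX' hY'') (mul_ne_zero hX hY')]
    rw [hs] at h1
    linear_combination (m ^ 2 - (x * y) ^ 2) * h2 - (m ^ 2 - (x' * y') ^ 2) * h1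
  · have h1 := (hy'Y.mono (show v ≤ v + 1 by omega)).sub hax
    have e : (β * y - α * x) * (1 + k * α * β * (x * y))⁻¹ / m - Y
          + (α / m) * x - (α / m) * x
        = (β * y - α * x) * (1 + k * α * β * (x * y))⁻¹ / m - Y := by ring
    rwa [e] at h1
  · intro hcon
    apply a'
    have h1 := hy'Y.sub hcon
    have e : (β * y - α * x) * (1 + k * α * β * (x * y))⁻¹ / m - Y + (α / m) * x
        - ((β * y - α * x) * (1 + k * α * β * (x * y))⁻¹ / m - Y) = (α / m) * x := by ring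
    rw [e] at h1
    have h2 := h1.mul hx.2.2
    have e2 : (α / m) * x * x⁻¹ = α / m := by
      rw [mul_assoc, mul_inv_cancel₀ hx.1, mul_one]
    rw [e2] at h2
    simpa using h2

theorem base_elt {p : ℤ} (hp : 2 ≤ p) {m x y : ℚ} (hm : 0 < m) (hmI : I p 0 m)
    (hx : Un p x) (hy : y ≠ 0) (hw : I p 1 (x * y / m)) :
    ∃ α β, ∃ v : ℕ, 1 ≤ v ∧ (p = 2 → 2 ≤ v) ∧
      Rel ((2 * m + (x ^ 2 + y ^ 2)) / (m ^ 2 - (x * y) ^ 2)
        * (x ^ 2 + y ^ 2 + (2 * m + (x ^ 2 + y ^ 2)) / (m ^ 2 - (x * y) ^ 2) * (x * y) ^ 2)) α β ∧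
      I p v (α / m) ∧ ¬ I p (v + 1) (α / m) ∧ I p 2 (β - 1) := by
  set w := x * y / m with hwdef
  have hm0 : m ≠ 0 := hm.ne'
  have hx0 := hx.1
  have hyI : I p 1 y := by
    have e : y = w * x⁻¹ * m := by rw [hwdef]; field_simp
    rw [e]; simpa using (hw.mul hx.2.2).mul hmI
  have h1w : Un p (1 - w * w) := by
    apply Un.of_one hp
    have e : 1 - w * w - 1 = -(w * w) := by ring
    rw [e]; exact (hw.mul hw).neg.mono (by omega)
  have ht : m ^ 2 - (x * y) ^ 2 = m ^ 2 * (1 - w * w) := by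
    rw [hwdef]; field_simp
  have ht0 : m ^ 2 - (x * y) ^ 2 ≠ 0 := by rw [ht]; exact mul_ne_zero (by positivity) h1w.1
  have hsU : Un p (x ^ 2 + y ^ 2) := by
    have e : x ^ 2 + y ^ 2 = x * x + y * y := by ring
    rw [e]
    exact (hx.mul hx).add hp ((hyI.mul hyI).mono (by omega))
  have hs0 : x ^ 2 + y ^ 2 ≠ 0 := hsU.1
  have h2I : I p 0 (2 : ℚ) := by simpa using I.int p 2
  have h4I : I p 0 (4 : ℚ) := by simpa using I.int p 4
  have hwI : I p 0 w := hw.mono (by omega)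
  have hEU : Un p ((x ^ 2 + y ^ 2) * (1 + w * w) + 4 * m * (w * w)) := by
    have e : (x ^ 2 + y ^ 2) * (1 + w * w) + 4 * m * (w * w)
        = (x ^ 2 + y ^ 2) + ((x ^ 2 + y ^ 2) * (w * w) + 4 * m * (w * w)) := by ring
    rw [e]
    exact hsU.add hp (((hsU.2.1.mul (hw.mul hw)).mono (by omega)).add
      (((h4I.mul hmI).mul (hw.mul hw)).mono (by omega)))
  have hαm : 2 * (x * y) / (x ^ 2 + y ^ 2) / m = 2 * w * (x ^ 2 + y ^ 2)⁻¹ := by
    rw [hwdef]; field_simp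
  have hαI1 : I p 1 (2 * (x * y) / (x ^ 2 + y ^ 2) / m) := by
    rw [hαm]; simpa using (h2I.mul hw).mul hsU.2.2
  have hαne : 2 * (x * y) / (x ^ 2 + y ^ 2) / m ≠ 0 := by positivity
  obtain ⟨v, hv1, hv2, hv3, hv4⟩ : ∃ v : ℕ, 1 ≤ v ∧ (p = 2 → 2 ≤ v) ∧
      I p v (2 * (x * y) / (x ^ 2 + y ^ 2) / m) ∧
      ¬ I p (v + 1) (2 * (x * y) / (x ^ 2 + y ^ 2) / m) := by
    rcases eq_or_ne p 2 with h2 | h2
    · have : I p 2 (2 * (x * y) / (x ^ 2 + y ^ 2) / m) := by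
        rw [hαm]
        have h3 : I p 1 (2 : ℚ) := by have := I.self p; rw [h2] at this ⊢; simpa using this
        simpa using (h3.mul hw).mul hsU.2.2
      obtain ⟨v, h3, h4, h5⟩ := exact_order hp hαne this
      exact ⟨v, by omega, fun _ => h3, h4, h5⟩
    · obtain ⟨v, h3, h4, h5⟩ := exact_order hp hαne hαI1
      exact ⟨v, h3, fun h => absurd h h2, h4, h5⟩
  have hG : (0 : ℚ) < m ^ 2 * (x ^ 2 + y ^ 2) + 4 * m * (x * y) ^ 2
      + (x * y) ^ 2 * (x ^ 2 + y ^ 2) := by positivity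
  refine ⟨2 * (x * y) / (x ^ 2 + y ^ 2), (x ^ 2 - y ^ 2) * (m ^ 2 - (x * y) ^ 2) /
    (m ^ 2 * (x ^ 2 + y ^ 2) + 4 * m * (x * y) ^ 2 + (x * y) ^ 2 * (x ^ 2 + y ^ 2)),
    v, hv1, hv2, ?_, hv3, hv4, ?_⟩
  · have hid : (x ^ 2 + y ^ 2) ^ 2 * (m ^ 2 - (x * y) ^ 2) ^ 2 + 4 * (x * y) ^ 2 * m
        * (2 * m + (x ^ 2 + y ^ 2)) * (m * (x ^ 2 + y ^ 2) + 2 * (x * y) ^ 2)
        = (m ^ 2 * (x ^ 2 + y ^ 2) + 4 * m * (x * y) ^ 2
          + (x * y) ^ 2 * (x ^ 2 + y ^ 2)) ^ 2 := by ring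
    have hq : (x ^ 2 - y ^ 2) ^ 2 = (x ^ 2 + y ^ 2) ^ 2 - 4 * (x * y) ^ 2 := by ring
    have hK : (2 * m + (x ^ 2 + y ^ 2)) / (m ^ 2 - (x * y) ^ 2)
        * (x ^ 2 + y ^ 2 + (2 * m + (x ^ 2 + y ^ 2)) / (m ^ 2 - (x * y) ^ 2) * (x * y) ^ 2)
        = (2 * m + (x ^ 2 + y ^ 2)) * m * (m * (x ^ 2 + y ^ 2) + 2 * (x * y) ^ 2)
          / (m ^ 2 - (x * y) ^ 2) ^ 2 := by
      have e : (x ^ 2 + y ^ 2) * (m ^ 2 - (x * y) ^ 2) + (2 * m + (x ^ 2 + y ^ 2)) * (x * y) ^ 2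
        = m * (m * (x ^ 2 + y ^ 2) + 2 * (x * y) ^ 2) := by ring
      rw [mul_assoc (2 * m + (x ^ 2 + y ^ 2)) m, ← e]
      generalize m ^ 2 - (x * y) ^ 2 = t at ht0
      field_simp
    rw [hK]
    unfold Rel
    have hG0 := hG.ne'
    generalize m ^ 2 * (x ^ 2 + y ^ 2) + 4 * m * (x * y) ^ 2
          + (x * y) ^ 2 * (x ^ 2 + y ^ 2) = G at hid hG0
    generalize m ^ 2 - (x * y) ^ 2 = t at hid ht0
    generalize x ^ 2 + y ^ 2 = s at hid hq hs0
    generalize x * y = P at hid hq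
    generalize x ^ 2 - y ^ 2 = q at hq
    calc (2 * P / s) ^ 2 + (q * t / G) ^ 2
          + (2 * m + s) * m * (m * s + 2 * P ^ 2) / t ^ 2 * (2 * P / s * (q * t / G)) ^ 2
        = (4 * P ^ 2 * G ^ 2 + q ^ 2 * (s ^ 2 * t ^ 2 + 4 * P ^ 2 * m * (2 * m + s)
            * (m * s + 2 * P ^ 2))) / (s ^ 2 * G ^ 2) := by
          field_simp
          ring
      _ = 1 := by
          rw [hid, hq]
          field_simp
          ring
  · have e : (x ^ 2 - y ^ 2) * (m ^ 2 - (x * y) ^ 2) /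
        (m ^ 2 * (x ^ 2 + y ^ 2) + 4 * m * (x * y) ^ 2 + (x * y) ^ 2 * (x ^ 2 + y ^ 2)) - 1
        = -(2 * (y * y + x * x * (w * w) + 2 * m * (w * w)))
          * ((x ^ 2 + y ^ 2) * (1 + w * w) + 4 * m * (w * w))⁻¹ := by
      have hG' : m ^ 2 * (x ^ 2 + y ^ 2) + 4 * m * (x * y) ^ 2 + (x * y) ^ 2 * (x ^ 2 + y ^ 2)
          = m ^ 2 * ((x ^ 2 + y ^ 2) * (1 + w * w) + 4 * m * (w * w)) := by
        rw [hwdef]; field_simp; ring
      have hP : (x * y) ^ 2 = m ^ 2 * (w * w) := by rw [hwdef]; field_simp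
      rw [hG', hP]
      have hE0 := hEU.1
      rw [div_sub_one (mul_ne_zero (by positivity) hE0), ← div_eq_mul_inv,
        div_eq_div_iff (mul_ne_zero (by positivity) hE0) hE0]
      ring
    rw [e]
    have h3 := (((hyI.mul hyI).mono (show 2 ≤ 1 + 1 by omega)).add
      (((hx.2.1.mul hx.2.1).mul (hw.mul hw)).mono (show 2 ≤ 0 + 0 + (1 + 1) by omega))).add
      (((h2I.mul hmI).mul (hw.mul hw)).mono (show 2 ≤ 0 + 0 + (1 + 1) by omega))
    have h4 := ((h2I.mul h3).neg.mul hEU.2.2)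
    simpa using h4

theorem sq_finite (e : ℚ) : Set.Finite {y : ℚ | y ^ 2 = e} := by
  rcases Set.eq_empty_or_nonempty {y : ℚ | y ^ 2 = e} with h | ⟨z, hz⟩
  · rw [h]; exact Set.finite_empty
  · apply Set.Finite.subset (Set.toFinite {z, -z})
    intro y hy
    simp only [Set.mem_ofPred_eq] at hy hz
    have : y ^ 2 = z ^ 2 := by rw [hy, hz]
    rcases sq_eq_sq_iff_eq_or_eq_neg.mp this with h | h
    · left; exact h
    · right; exact h

theorem avoid {p : ℤ} (hpp : Prime p) (hp : 2 ≤ p) {m x y : ℚ} (hm : 0 < m) (hmI : I p 0 m)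
    (hx : Un p x) (hy : y ≠ 0) (hw : I p 1 (x * y / m)) (F : Finset ℚ) :
    ∃ x' y', Un p x' ∧ y' ≠ 0 ∧ I p 1 (x' * y' / m) ∧
      1 / (m + x' ^ 2) + 1 / (m + y' ^ 2) = 1 / (m + x ^ 2) + 1 / (m + y ^ 2) ∧
      |x'| ∉ F ∧ |y'| ∉ F := by
  obtain ⟨α, β, v, hv1, hv2, hrel, ha, ha', hb⟩ := base_elt hp hm hmI hx hy hw
  have hKI : I p 0 ((2 * m + (x ^ 2 + y ^ 2)) / (m ^ 2 - (x * y) ^ 2)
        * (x ^ 2 + y ^ 2 + (2 * m + (x ^ 2 + y ^ 2)) / (m ^ 2 - (x * y) ^ 2) * (x * y) ^ 2)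
        * m ^ 2) := by
    have hm0 := hm.ne'
    have hx0 := hx.1
    have hyI : I p 1 y := by
      have e : y = (x * y / m) * x⁻¹ * m := by field_simp
      rw [e]; simpa using (hw.mul hx.2.2).mul hmI
    have h1w : Un p (1 - (x * y / m) * (x * y / m)) := by
      apply Un.of_one hp
      have e : 1 - (x * y / m) * (x * y / m) - 1 = -((x * y / m) * (x * y / m)) := by ring
      rw [e]; exact (hw.mul hw).neg.mono (by omega)
    have ht : m ^ 2 - (x * y) ^ 2 = m ^ 2 * (1 - (x * y / m) * (x * y / m)) := by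
      field_simp
    have hsI : I p 0 (x ^ 2 + y ^ 2) := by
      have e : x ^ 2 + y ^ 2 = x * x + y * y := by ring
      rw [e]; exact (hx.2.1.mul hx.2.1).add ((hyI.mul hyI).mono (by omega))
    have h2I : I p 0 (2 : ℚ) := by simpa using I.int p 2
    have h2ms : I p 0 (2 * m + (x ^ 2 + y ^ 2)) := ((h2I.mul hmI).mono (by omega)).add hsI
    have hkm : I p 0 ((2 * m + (x ^ 2 + y ^ 2)) / (m ^ 2 - (x * y) ^ 2) * m ^ 2) := by
      have e : (2 * m + (x ^ 2 + y ^ 2)) / (m ^ 2 - (x * y) ^ 2) * m ^ 2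
          = (2 * m + (x ^ 2 + y ^ 2)) * (1 - (x * y / m) * (x * y / m))⁻¹ := by
        rw [ht]
        have := h1w.1
        generalize (1 - (x * y / m) * (x * y / m)) = d at this
        field_simp
      rw [e]; simpa using h2ms.mul h1w.2.2
    have e : (2 * m + (x ^ 2 + y ^ 2)) / (m ^ 2 - (x * y) ^ 2)
        * (x ^ 2 + y ^ 2 + (2 * m + (x ^ 2 + y ^ 2)) / (m ^ 2 - (x * y) ^ 2) * (x * y) ^ 2)
        * m ^ 2 = ((2 * m + (x ^ 2 + y ^ 2)) / (m ^ 2 - (x * y) ^ 2) * m ^ 2) *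
          (x ^ 2 + y ^ 2 + ((2 * m + (x ^ 2 + y ^ 2)) / (m ^ 2 - (x * y) ^ 2) * m ^ 2)
            * ((x * y / m) * (x * y / m))) := by
      generalize (2 * m + (x ^ 2 + y ^ 2)) / (m ^ 2 - (x * y) ^ 2) = k
      field_simp
    rw [e]
    have := hkm.mul (hsI.add ((hkm.mul (hw.mul hw)).mono (show 0 ≤ 0 + (1 + 1) by omega)))
    simpa using this
  have key : ∀ k : ℕ, ∃ x' y', Un p x' ∧ I p 1 (x' * y' / m) ∧
      1 / (m + x' ^ 2) + 1 / (m + y' ^ 2) = 1 / (m + x ^ 2) + 1 / (m + y ^ 2) ∧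
      I p (v + k) (y' / m - y / m) ∧ ¬ I p (v + k + 1) (y' / m - y / m) := by
    intro k
    obtain ⟨α', β', r', h1, h2, h3⟩ := deep hpp hp hv1 hv2 hm.ne' hmI hKI hrel ha ha' hb k
    exact translate hp hm hmI hx hw (by omega) r' h1 h2 h3
  choose X Y hX hwk hV hI hnI using key
  have hinj : Function.Injective Y := by
    have hlt : ∀ k l, k < l → Y k ≠ Y l := by
      intro k l hkl h
      apply hnI k
      rw [h]
      exact (hI l).mono (by omega)
    intro k l h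
    rcases lt_trichotomy k l with h1 | h1 | h1
    · exact absurd h (hlt k l h1)
    · exact h1
    · exact absurd h.symm (hlt l k h1)
  set c := 1 / (m + x ^ 2) + 1 / (m + y ^ 2) with hc
  have hBfin : Set.Finite ((⋃ f ∈ F, {z : ℚ | z ^ 2 = f ^ 2}) ∪ {z : ℚ | z ^ 2 = 0} ∪
      (⋃ f ∈ F, {z : ℚ | z ^ 2 = (c - 1 / (m + f ^ 2))⁻¹ - m})) := by
    refine Set.Finite.union (Set.Finite.union ?_ (sq_finite 0)) ?_
    · exact Set.Finite.biUnion F.finite_toSet (fun f _ => sq_finite _)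
    · exact Set.Finite.biUnion F.finite_toSet (fun f _ => sq_finite _)
  obtain ⟨z, ⟨k, rfl⟩, hk⟩ := ((Set.infinite_range_of_injective hinj).sdiff hBfin).nonempty
  refine ⟨X k, Y k, hX k, ?_, hwk k, hV k, ?_, ?_⟩
  · intro h
    apply hk
    left; right
    simp [h]
  · intro h
    apply hk
    right
    simp only [Set.mem_iUnion, Set.mem_ofPred_eq]
    refine ⟨|X k|, h, ?_⟩
    have h1 := hV k
    rw [sq_abs]
    have h2 : c - 1 / (m + X k ^ 2) = 1 / (m + Y k ^ 2) := by linarith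
    rw [h2, one_div, inv_inv]
    ring
  · intro h
    apply hk
    left; left
    simp only [Set.mem_iUnion, Set.mem_ofPred_eq]
    exact ⟨|Y k|, h, (sq_abs _).symm⟩

end Pool.Agent.Helper917Lat
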