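import Pool.Agent.Helper917_Lat.C

namespace Pool.Agent.Helper917Lat

/-- one `x` and `b` copies of `y₀` -/
theorem group_one {p : ℤ} (hpp : Prime p) (hp : 2 ≤ p) {m y₀ : ℚ} (hm : 0 < m) (hmI : I p 0 m)
    (hy₀ : y₀ ≠ 0) (hwy : I p 1 (y₀ / m)) (b : ℕ) :
    ∀ (x : ℚ), Un p x → ∀ F : Finset ℚ, ∃ G : Finset ℚ, G.card = b + 2 ∧ (∀ g ∈ G, 0 < g) ∧
      Disjoint G F ∧ ∑ g ∈ G, 1 / (m + g ^ 2) = 1 / (m + x ^ 2) + ((b : ℚ) + 1) / (m + y₀ ^ 2) := by
  classical
  induction b with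
  | zero =>
    intro x hx F
    have hw : I p 1 (x * y₀ / m) := by rw [mul_div_assoc]; simpa using hx.2.1.mul hwy
    obtain ⟨x', y', hx', hy', hw', hV, h1, h2⟩ := avoid hpp hp hm hmI hx hy₀ hw F
    have hne : |x'| ≠ |y'| := by
      intro h
      have h3 : I p 1 (x' * x') := by
        rcases abs_eq_abs.mp h with h4 | h4
        · have h5 := hw'.mul hmI
          rw [← h4] at h5
          have e : x' * x' / m * m = x' * x' := by field_simp
          rw [e] at h5; simpa using h5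
        · have h5 := (hw'.mul hmI).neg
          have h6 : y' = -x' := by rw [h4]; ring
          rw [h6] at h5
          have e : -(x' * -x' / m * m) = x' * x' := by field_simp
          rw [e] at h5; simpa using h5
      exact (hx'.mul hx').not_I hp h3
    refine ⟨{|x'|, |y'|}, ?_, ?_, ?_, ?_⟩
    · rw [Finset.card_pair hne]
    · intro g hg
      rw [Finset.mem_insert, Finset.mem_singleton] at hg
      rcases hg with rfl | rfl
      · exact abs_pos.mpr hx'.1
      · exact abs_pos.mpr hy'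
    · rw [Finset.disjoint_left]
      intro g hg
      rw [Finset.mem_insert, Finset.mem_singleton] at hg
      rcases hg with rfl | rfl
      · exact h1
      · exact h2
    · rw [Finset.sum_pair hne, sq_abs, sq_abs, hV]
      push_cast; ring
  | succ b ih =>
    intro x hx F
    have hw : I p 1 (x * y₀ / m) := by rw [mul_div_assoc]; simpa using hx.2.1.mul hwy
    obtain ⟨x', y', hx', hy', hw', hV, h1, h2⟩ := avoid hpp hp hm hmI hx hy₀ hw F
    obtain ⟨G, hG1, hG2, hG3, hG4⟩ := ih x' hx' (insert |y'| F)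
    have hyG : |y'| ∉ G := by
      intro h
      exact (Finset.disjoint_left.mp hG3 h) (Finset.mem_insert_self _ _)
    refine ⟨insert |y'| G, ?_, ?_, ?_, ?_⟩
    · rw [Finset.card_insert_of_notMem hyG, hG1]
    · intro g hg
      rw [Finset.mem_insert] at hg
      rcases hg with rfl | hg
      · exact abs_pos.mpr hy'
      · exact hG2 g hg
    · rw [Finset.disjoint_left]
      intro g hg hgF
      rw [Finset.mem_insert] at hg
      rcases hg with rfl | hg
      · exact h2 hgF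
      · exact (Finset.disjoint_left.mp hG3 hg) (Finset.mem_insert_of_mem hgF)
    · rw [Finset.sum_insert hyG, hG4, sq_abs]
      push_cast
      linear_combination hV

/-- `a` copies of `x₀` and `b ≥ a` copies of `y₀` -/
theorem group_all {p : ℤ} (hpp : Prime p) (hp : 2 ≤ p) {m x₀ y₀ : ℚ} (hm : 0 < m)
    (hmI : I p 0 m) (hx₀ : Un p x₀) (hy₀ : y₀ ≠ 0) (hwy : I p 1 (y₀ / m)) (a : ℕ) :
    ∀ (b : ℕ) (F : Finset ℚ), ∃ G : Finset ℚ, G.card = (a + 1) + (a + 1 + b) ∧ (∀ g ∈ G, 0 < g) ∧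
      Disjoint G F ∧ ∑ g ∈ G, 1 / (m + g ^ 2)
        = ((a : ℚ) + 1) / (m + x₀ ^ 2) + ((a : ℚ) + 1 + b) / (m + y₀ ^ 2) := by
  classical
  induction a with
  | zero =>
    intro b F
    obtain ⟨G, hG1, hG2, hG3, hG4⟩ := group_one hpp hp hm hmI hy₀ hwy b x₀ hx₀ F
    refine ⟨G, by omega, hG2, hG3, ?_⟩
    rw [hG4]; push_cast; ring
  | succ a ih =>
    intro b F
    obtain ⟨G, hG1, hG2, hG3, hG4⟩ := group_one hpp hp hm hmI hy₀ hwy 0 x₀ hx₀ F
    obtain ⟨G', hG1', hG2', hG3', hG4'⟩ := ih b (F ∪ G)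
    have hdis : Disjoint G G' := by
      rw [Finset.disjoint_left]
      intro g hg hg'
      exact (Finset.disjoint_left.mp hG3' hg') (Finset.mem_union_right _ hg)
    refine ⟨G ∪ G', ?_, ?_, ?_, ?_⟩
    · rw [Finset.card_union_of_disjoint hdis, hG1, hG1']; omega
    · intro g hg
      rcases Finset.mem_union.mp hg with h | h
      · exact hG2 g h
      · exact hG2' g h
    · rw [Finset.disjoint_left]
      intro g hg hgF
      rcases Finset.mem_union.mp hg with h | h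
      · exact (Finset.disjoint_left.mp hG3 h) hgF
      · exact (Finset.disjoint_left.mp hG3' h) (Finset.mem_union_left _ hgF)
    · rw [Finset.sum_union hdis, hG4, hG4']
      push_cast; ring

/-- For `m = n d ≡ 3 (mod 4)` with `n ≥ d + 6` there are `(n-1)/2` distinct positive rationals with
the right reciprocal sum. -/
theorem family_nd (n d : ℕ) (h4 : (n * d) % 4 = 3) (hnd : d + 6 ≤ n) :
    ∃ G : Finset ℚ, n = 2 * G.card + 1 ∧ (∀ g ∈ G, 0 < g) ∧
      ∑ g ∈ G, 1 / (((n * d : ℕ) : ℚ) + g ^ 2) = (n : ℚ) / (4 * ((n * d : ℕ) : ℚ)) := by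
  have hd0 : 0 < d := by
    rcases Nat.eq_zero_or_pos d with h | h
    · subst h; omega
    · exact h
  have hmod : (n + d) % 4 = 0 := by
    have h1 : (n * d) % 4 = ((n % 4) * (d % 4)) % 4 := Nat.mul_mod _ _ _
    have hn4 : n % 4 < 4 := Nat.mod_lt _ (by norm_num)
    have hd4 : d % 4 < 4 := Nat.mod_lt _ (by norm_num)
    rw [h4] at h1
    have h2 : (n + d) % 4 = ((n % 4) + (d % 4)) % 4 := Nat.add_mod _ _ _
    rw [h2]
    generalize n % 4 = u at h1 hn4
    generalize d % 4 = v at h1 hd4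
    interval_cases u <;> interval_cases v <;> omega
  have hdodd : d % 2 = 1 := by
    by_contra h
    have : d % 2 = 0 := by omega
    obtain ⟨e, rfl⟩ : 2 ∣ d := Nat.dvd_of_mod_eq_zero this
    have : n * (2 * e) = 2 * (n * e) := by ring
    omega
  obtain ⟨e, he⟩ : 4 ∣ n + d := Nat.dvd_of_mod_eq_zero hmod
  obtain ⟨f, hf⟩ : ∃ f, d = 2 * f + 1 := ⟨d / 2, by omega⟩
  -- number of copies: `a = e - f - 1` and `b = e`
  obtain ⟨a, ha⟩ : ∃ a, e = a + 1 + (f + 1) := ⟨e - f - 2, by omega⟩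
  -- the prime
  set g := Nat.gcd (n - 1) (d + 1) with hg
  have hgpos : 0 < g := Nat.gcd_pos_of_pos_right _ (by omega)
  obtain ⟨n₁, hn₁⟩ : g ∣ n - 1 := Nat.gcd_dvd_left _ _
  obtain ⟨d₁, hd₁⟩ : g ∣ d + 1 := Nat.gcd_dvd_right _ _
  have hcop : Nat.Coprime n₁ d₁ := by
    have h1 := Nat.coprime_div_gcd_div_gcd (m := n - 1) (n := d + 1) (by rw [← hg]; exact hgpos)
    rw [← hg] at h1
    rw [hn₁, hd₁, Nat.mul_div_cancel_left _ hgpos, Nat.mul_div_cancel_left _ hgpos] at h1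
    exact h1
  have hn₁1 : n₁ ≠ 1 := by
    intro h
    rw [h, mul_one] at hn₁
    have h2 : g ≤ d + 1 := Nat.le_of_dvd (by omega) (Nat.gcd_dvd_right _ _)
    omega
  obtain ⟨p, hp, hpn⟩ := Nat.exists_prime_and_dvd hn₁1
  have hpp : Prime (p : ℤ) := Nat.prime_iff_prime_int.mp hp
  have hp2 : (2 : ℤ) ≤ p := by exact_mod_cast hp.two_le
  have hpn1 : p ∣ n - 1 := hpn.trans ⟨g, by rw [hn₁]; ring⟩
  have hpn' : ¬ p ∣ n := by
    intro h
    have h1 := (Nat.dvd_sub h hpn1)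
    have h2 : n - (n - 1) = 1 := by omega
    rw [h2] at h1
    exact hp.one_lt.ne' (Nat.dvd_one.mp h1)
  have hpd₁ : ¬ p ∣ d₁ := by
    intro h
    have := Nat.dvd_gcd hpn h
    rw [hcop] at this
    exact hp.one_lt.ne' (Nat.dvd_one.mp this)
  have hcopnd : IsCoprime ((n * d₁ : ℕ) : ℤ) (p : ℤ) := by
    rw [Nat.isCoprime_iff_coprime, Nat.coprime_comm, Nat.Prime.coprime_iff_not_dvd hp]
    intro h
    rcases (Nat.Prime.dvd_mul hp).mp h with h | h
    · exact hpn' h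
    · exact hpd₁ h
  have hnQ : (0 : ℚ) < n := by exact_mod_cast (show 0 < n by omega)
  have hdQ : (0 : ℚ) < d := by exact_mod_cast hd0
  have hmQ : (0 : ℚ) < ((n * d : ℕ) : ℚ) := by push_cast; positivity
  have hmI : I p 0 (((n * d : ℕ) : ℚ)) := by simpa using I.int p ((n * d : ℕ) : ℤ)
  have hd1Q : ((d : ℚ) + 1) ≠ 0 := by positivity
  set y₀ : ℚ := d * (n - 1) / (d + 1) with hy₀
  have hn1Q : (0 : ℚ) < (n : ℚ) - 1 := by
    have : (1 : ℚ) < n := by exact_mod_cast (show 1 < n by omega)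
    linarith
  have hy₀0 : y₀ ≠ 0 := by rw [hy₀]; positivity
  have hyI : I p 1 (y₀ / ((n * d : ℕ) : ℚ)) := by
    obtain ⟨q, hq⟩ := hpn
    refine ⟨q, (n * d₁ : ℕ), hcopnd, ?_⟩
    have e1 : (n : ℚ) - 1 = g * n₁ := by
      have : ((n - 1 : ℕ) : ℚ) = ((g * n₁ : ℕ) : ℚ) := by rw [← hn₁]
      rw [Nat.cast_sub (by omega)] at this
      push_cast at this
      linarith
    have e2 : (d : ℚ) + 1 = g * d₁ := by
      have : ((d + 1 : ℕ) : ℚ) = ((g * d₁ : ℕ) : ℚ) := by rw [← hd₁]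
      push_cast at this
      linarith
    have hgQ : (g : ℚ) ≠ 0 := by exact_mod_cast hgpos.ne'
    have hd₁Q : (d₁ : ℚ) ≠ 0 := by
      intro h; rw [h, mul_zero] at e2; exact hd1Q e2
    have e3 : (n₁ : ℚ) = p * q := by rw [hq]; push_cast; ring
    rw [hy₀, e1, e2, e3]
    push_cast
    field_simp
  have h1U : Un (p : ℤ) 1 := ⟨one_ne_zero, I.one _, by simpa using I.one (p : ℤ)⟩
  obtain ⟨G, hG1, hG2, -, hG4⟩ := group_all hpp hp2 hmQ hmI h1U hy₀0 hyI a (f + 1) ∅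
  refine ⟨G, by omega, hG2, ?_⟩
  rw [hG4]
  have haQ : (a : ℚ) + 1 = (n - d - 2) / 4 := by
    have h1 : ((n + d : ℕ) : ℚ) = ((4 * e : ℕ) : ℚ) := by rw [he]
    have h2 : (d : ℚ) = 2 * f + 1 := by rw [hf]; push_cast; ring
    have h3 : (e : ℚ) = a + 1 + (f + 1) := by rw [ha]; push_cast; ring
    push_cast at h1
    rw [h3] at h1
    linarith
  have hbQ : (a : ℚ) + 1 + ((f + 1 : ℕ) : ℚ) = (n + d) / 4 := by
    have h2 : (d : ℚ) = 2 * f + 1 := by rw [hf]; push_cast; ring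
    rw [haQ]; push_cast; linarith
  rw [hbQ, haQ]
  have hS : ((n * d : ℕ) : ℚ) + y₀ ^ 2 = ((n * d : ℚ) + 1) * (d * (n + d)) / (d + 1) ^ 2 := by
    rw [hy₀]; push_cast; field_simp; ring
  have hm1 : (n : ℚ) * d + 1 ≠ 0 := by positivity
  have hnd' : (n : ℚ) + d ≠ 0 := by positivity
  rw [hS]
  push_cast
  field_simp
  ring

end Pool.Agent.Helper917Lat
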