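import Pool.Agent.Helper917_Lat.D

namespace Pool.Agent.Helper917Lat

/-- one `y` and `a + 1` copies of `x₀` -/
theorem group_one' {p : ℤ} (hpp : Prime p) (hp : 2 ≤ p) {m x₀ : ℚ} (hm : 0 < m) (hmI : I p 0 m)
    (hx₀ : Un p x₀) (a : ℕ) :
    ∀ (y : ℚ), y ≠ 0 → I p 1 (y / m) → ∀ F : Finset ℚ, ∃ G : Finset ℚ, G.card = a + 2 ∧
      (∀ g ∈ G, 0 < g) ∧ Disjoint G F ∧
      ∑ g ∈ G, 1 / (m + g ^ 2) = ((a : ℚ) + 1) / (m + x₀ ^ 2) + 1 / (m + y ^ 2) := by
  classical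
  induction a with
  | zero =>
    intro y hy hwy F
    obtain ⟨G, h1, h2, h3, h4⟩ := group_one hpp hp hm hmI hy hwy 0 x₀ hx₀ F
    refine ⟨G, h1, h2, h3, ?_⟩
    rw [h4]; push_cast; ring
  | succ a ih =>
    intro y hy hwy F
    have hw : I p 1 (x₀ * y / m) := by rw [mul_div_assoc]; simpa using hx₀.2.1.mul hwy
    obtain ⟨x', y', hx', hy', hw', hV, h1, h2⟩ := avoid hpp hp hm hmI hx₀ hy hw F
    have hwy' : I p 1 (y' / m) := by
      have hx0 := hx'.1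
      have e : y' / m = (x' * y' / m) * x'⁻¹ := by field_simp
      rw [e]; simpa using hw'.mul hx'.2.2
    obtain ⟨G, hG1, hG2, hG3, hG4⟩ := ih y' hy' hwy' (insert |x'| F)
    have hxG : |x'| ∉ G := by
      intro h
      exact (Finset.disjoint_left.mp hG3 h) (Finset.mem_insert_self _ _)
    refine ⟨insert |x'| G, ?_, ?_, ?_, ?_⟩
    · rw [Finset.card_insert_of_notMem hxG, hG1]
    · intro g hg
      rw [Finset.mem_insert] at hg
      rcases hg with rfl | hg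
      · exact abs_pos.mpr hx'.1
      · exact hG2 g hg
    · rw [Finset.disjoint_left]
      intro g hg hgF
      rw [Finset.mem_insert] at hg
      rcases hg with rfl | hg
      · exact h1 hgF
      · exact (Finset.disjoint_left.mp hG3 hg) (Finset.mem_insert_of_mem hgF)
    · rw [Finset.sum_insert hxG, hG4, sq_abs]
      push_cast
      linear_combination hV

/-- The case `n = d + 2`. -/
theorem family_twin (d : ℕ) (hodd : d % 2 = 1) (h9 : 9 ≤ d) (hdiv : ¬ (d - 1) ∣ 12) :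
    ∃ G : Finset ℚ, d + 2 = 2 * G.card + 1 ∧ (∀ g ∈ G, 0 < g) ∧
      ∑ g ∈ G, 1 / ((((d + 2) * d : ℕ) : ℚ) + g ^ 2)
        = ((d + 2 : ℕ) : ℚ) / (4 * (((d + 2) * d : ℕ) : ℚ)) := by
  classical
  obtain ⟨f, hf⟩ : ∃ f, d = 2 * (f + 4) + 1 := ⟨d / 2 - 4, by omega⟩
  -- the prime
  set g := Nat.gcd (d - 1) ((d + 3) * (d + 2)) with hg
  have hgpos : 0 < g := Nat.gcd_pos_of_pos_left _ (by omega)
  obtain ⟨n₁, hn₁⟩ : g ∣ d - 1 := Nat.gcd_dvd_left _ _
  obtain ⟨d₁, hd₁⟩ : g ∣ (d + 3) * (d + 2) := Nat.gcd_dvd_right _ _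
  have hcop : Nat.Coprime n₁ d₁ := by
    have h1 := Nat.coprime_div_gcd_div_gcd (m := d - 1) (n := (d + 3) * (d + 2))
      (by rw [← hg]; exact hgpos)
    rw [← hg] at h1
    rw [hn₁, hd₁, Nat.mul_div_cancel_left _ hgpos, Nat.mul_div_cancel_left _ hgpos] at h1
    exact h1
  have hn₁1 : n₁ ≠ 1 := by
    intro h
    rw [h, mul_one] at hn₁
    apply hdiv
    have h2 : d - 1 ∣ (d + 3) * (d + 2) := by rw [hn₁]; exact ⟨d₁, hd₁⟩
    have h3 : (d + 3) * (d + 2) = (d - 1) * (d + 6) + 12 := by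
      obtain ⟨k, rfl⟩ : ∃ k, d = k + 1 := ⟨d - 1, by omega⟩
      rw [Nat.add_sub_cancel]; ring
    rw [h3] at h2
    exact (Nat.dvd_add_right (Dvd.intro _ rfl)).mp h2
  obtain ⟨p, hp, hpn⟩ := Nat.exists_prime_and_dvd hn₁1
  have hpp : Prime (p : ℤ) := Nat.prime_iff_prime_int.mp hp
  have hp2 : (2 : ℤ) ≤ p := by exact_mod_cast hp.two_le
  have hpd1 : p ∣ d - 1 := hpn.trans ⟨g, by rw [hn₁]; ring⟩
  have hpd : ¬ p ∣ d := by
    intro h
    have h1 := (Nat.dvd_sub h hpd1)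
    have h2 : d - (d - 1) = 1 := by omega
    rw [h2] at h1
    exact hp.one_lt.ne' (Nat.dvd_one.mp h1)
  have hpd₁ : ¬ p ∣ d₁ := by
    intro h
    have := Nat.dvd_gcd hpn h
    rw [hcop] at this
    exact hp.one_lt.ne' (Nat.dvd_one.mp this)
  have hcopd₁ : IsCoprime (d₁ : ℤ) (p : ℤ) := by
    rw [Nat.isCoprime_iff_coprime, Nat.coprime_comm, Nat.Prime.coprime_iff_not_dvd hp]
    exact hpd₁
  have hcopd : IsCoprime (d : ℤ) (p : ℤ) := by
    rw [Nat.isCoprime_iff_coprime, Nat.coprime_comm, Nat.Prime.coprime_iff_not_dvd hp]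
    exact hpd
  have hd9 : (9 : ℚ) ≤ d := by exact_mod_cast h9
  have hmQ : (0 : ℚ) < (((d + 2) * d : ℕ) : ℚ) := by push_cast; positivity
  have hmI : I p 0 ((((d + 2) * d : ℕ) : ℚ)) := by simpa using I.int p (((d + 2) * d : ℕ) : ℤ)
  have hUd : Un (p : ℤ) (d : ℚ) := by
    refine ⟨by positivity, by simpa using I.int p (d : ℤ), 1, d, hcopd, ?_⟩
    push_cast
    field_simp
  set y₀ : ℚ := d * (d - 1) / (d + 3) with hy₀
  set z₀ : ℚ := d * (d + 5) / (d - 3) with hz₀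
  have hdm1 : (0 : ℚ) < (d : ℚ) - 1 := by linarith
  have hdm3 : (0 : ℚ) < (d : ℚ) - 3 := by linarith
  have hy₀0 : 0 < y₀ := by rw [hy₀]; positivity
  have hz₀0 : 0 < z₀ := by rw [hz₀]; positivity
  have hyI : I p 1 (y₀ / (((d + 2) * d : ℕ) : ℚ)) := by
    obtain ⟨q, hq⟩ := hpn
    refine ⟨q, (d₁ : ℕ), hcopd₁, ?_⟩
    have e1 : (d : ℚ) - 1 = g * n₁ := by
      have : ((d - 1 : ℕ) : ℚ) = ((g * n₁ : ℕ) : ℚ) := by rw [← hn₁]
      rw [Nat.cast_sub (by omega)] at this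
      push_cast at this
      linarith
    have e2 : ((d : ℚ) + 3) * (d + 2) = g * d₁ := by
      have : (((d + 3) * (d + 2) : ℕ) : ℚ) = ((g * d₁ : ℕ) : ℚ) := by rw [← hd₁]
      push_cast at this
      linarith
    have hgQ : (g : ℚ) ≠ 0 := by exact_mod_cast hgpos.ne'
    have e3 : (n₁ : ℚ) = p * q := by rw [hq]; push_cast; ring
    have hd0 : (d : ℚ) ≠ 0 := by positivity
    have e4 : y₀ / (((d + 2) * d : ℕ) : ℚ) = ((d : ℚ) - 1) / (((d : ℚ) + 3) * (d + 2)) := by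
      rw [hy₀]; push_cast; field_simp
    have hd₁Q : (d₁ : ℚ) ≠ 0 := by
      intro h; rw [h, mul_zero] at e2
      have : (0 : ℚ) < ((d : ℚ) + 3) * (d + 2) := by positivity
      linarith
    rw [e4, e1, e2, e3]
    push_cast
    field_simp
  obtain ⟨G, hG1, hG2, hG3, hG4⟩ := group_one' hpp hp2 hmQ hmI hUd 0 y₀ hy₀0.ne' hyI {z₀}
  obtain ⟨H, hH1, hH2, hH3, hH4⟩ := group_one' hpp hp2 hmQ hmI hUd f y₀ hy₀0.ne' hyI (insert z₀ G)
  have hGH : Disjoint G H := by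
    rw [Finset.disjoint_left]
    intro a ha hb
    exact (Finset.disjoint_left.mp hH3 hb) (Finset.mem_insert_of_mem ha)
  have hz : z₀ ∉ G ∪ H := by
    intro h
    rcases Finset.mem_union.mp h with h | h
    · exact (Finset.disjoint_left.mp hG3 h) (Finset.mem_singleton_self _)
    · exact (Finset.disjoint_left.mp hH3 h) (Finset.mem_insert_self _ _)
  refine ⟨insert z₀ (G ∪ H), ?_, ?_, ?_⟩
  · rw [Finset.card_insert_of_notMem hz, Finset.card_union_of_disjoint hGH, hG1, hH1]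
    omega
  · intro a ha
    rcases Finset.mem_insert.mp ha with rfl | ha
    · exact hz₀0
    · rcases Finset.mem_union.mp ha with h | h
      · exact hG2 a h
      · exact hH2 a h
  · rw [Finset.sum_insert hz, Finset.sum_union hGH, hG4, hH4]
    have hE : (d : ℚ) ^ 2 + 2 * d + 9 ≠ 0 := by positivity
    have hVd : (((d + 2) * d : ℕ) : ℚ) + (d : ℚ) ^ 2 = 2 * d * (d + 1) := by push_cast; ring
    have hVy : (((d + 2) * d : ℕ) : ℚ) + y₀ ^ 2
        = 2 * d * (d + 1) * ((d : ℚ) ^ 2 + 2 * d + 9) / (d + 3) ^ 2 := by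
      rw [hy₀]; push_cast; field_simp; ring
    have hVz : (((d + 2) * d : ℕ) : ℚ) + z₀ ^ 2
        = 2 * d * (d + 1) * ((d : ℚ) ^ 2 + 2 * d + 9) / (d - 3) ^ 2 := by
      rw [hz₀]; push_cast; field_simp; ring
    rw [hVd, hVy, hVz]
    have hfQ : (f : ℚ) = (d - 9) / 2 := by
      have : (d : ℚ) = 2 * (f + 4) + 1 := by rw [hf]; push_cast; ring
      rw [this]; ring
    rw [hfQ]
    have hd0 : (d : ℚ) ≠ 0 := by positivity
    push_cast
    field_simp
    ring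

end Pool.Agent.Helper917Lat
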