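import Pool.Agent.Helper917_Lat.D
import Pool.Agent.Helper917_Lat.B

open Pool.Agent.Helper917Lat

/-- If `m = n d ≡ 3 (mod 4)` and `n ≥ d + 6`, then the lattice `Λ(m)` contains a convex equilateral
`n`-gon. (For square-free `m ≡ 3 (mod 4)` whose largest prime factor `n'` is at least `m / n' + 6`
this is the positive answer to Q1.) -/
theorem Pool.Agent.Results.MP_b75a1e_co.LargeFactor.result (n d : ℕ) (h4 : (n * d) % 4 = 3)
    (hnd : d + 6 ≤ n) : HasConvexEquilateralGon (Lat (n * d)) n := by
  obtain ⟨G, hcard, hpos, hsum⟩ := family_nd n d h4 hnd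
  have hd0 : 0 < d := by
    rcases Nat.eq_zero_or_pos d with h | h
    · subst h; omega
    · exact h
  have hm : 0 < n * d := Nat.mul_pos (by omega) hd0
  obtain ⟨e, N, hinj, hN, hnorm, hs⟩ := vectors_of_family (κ := {g // g ∈ G}) (n * d) hm
    (fun g => g.1) Subtype.val_injective (fun g => hpos g.1 g.2) n
    (by rw [Fintype.card_coe]; exact hcard)
    (by
      rw [← hsum]
      exact Finset.sum_coe_sort G (fun g => 1 / (((n * d : ℕ) : ℚ) + g ^ 2)))
  refine gon_of_vectors hm (by omega) ?_ e N hinj hN hnorm hs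
  simp only [Fintype.card_option, Fintype.card_prod, Fintype.card_coe, Fintype.card_bool]
  omega
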