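import Pool.Agent.Helper917_Lat.A
import Pool.Agent.Helper917_Lat.B

open Pool.Agent.Helper917Lat

/-- For every `m ≡ 3 (mod 4)` the lattice `Λ(m)` contains a convex equilateral `m`-gon. In
particular (`m` prime) the lattice `Λ(p)` contains a convex equilateral `p`-gon for every prime
`p ≡ 3 (mod 4)`. -/
theorem Pool.Agent.Results.MP_b75a1e_co.SizeM.result (m : ℕ) (hm : m % 4 = 3) :
    HasConvexEquilateralGon (Lat m) m := by
  obtain ⟨h, rfl⟩ : ∃ h, m = 4 * h + 3 := ⟨m / 4, by omega⟩
  obtain ⟨e, N, hinj, hN, hnorm, hsum⟩ := vectors_of_family (4 * h + 3) (by omega) (fam h)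
    (fam_inj h) (fam_pos h) (4 * h + 3)
    (by simp only [Fintype.card_option, Fintype.card_prod, Fintype.card_fin, Fintype.card_bool]
        omega)
    (by
      rw [fam_sum]
      have : ((4 * h + 3 : ℕ) : ℚ) ≠ 0 := by positivity
      field_simp)
  refine gon_of_vectors (by omega) (by omega) ?_ e N hinj hN hnorm hsum
  simp only [Fintype.card_option, Fintype.card_prod, Fintype.card_fin, Fintype.card_bool]
  omega
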